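import Pool.Agent.V5helper41.SB.Ga

/-!
# The group is commutative
-/

set_option autoImplicit false
set_option linter.unusedSectionVars false

namespace Pool.Agent.V5helper41.SB

open NumberField
open Pool.Agent.Y692.QS (Ei w nr)
open scoped Classical

variable {F : Type} [Field F] [NumberField F] {φ : Ei →+* 𝓞 F} {k : ℕ} {d : Fin k → Ei}
  {N : Fin k → ℕ} {x : Fin k → 𝓞 F}

lemma zpow3 (φ : Ei →+* 𝓞 F) (n : ℕ) : (zF φ ^ n) ^ 3 = 1 := by
  have h := zF_rel φ
  have h3 : zF φ ^ 3 = 1 := by linear_combination (zF φ - 1) * h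
  rw [← pow_mul, mul_comm, pow_mul, h3, one_pow]

theorem CA.comm (C : CA φ d N x) (σ τ : F ≃ₐ[ℚ] F) : σ * τ = τ * σ := by
  have h3 : zF φ ^ 3 = 1 := by linear_combination (zF φ - 1) * zF_rel φ
  have hy : ∀ (ρ : F ≃ₐ[ℚ] F) i, ρ (yF N x i) * ρ ((x i : 𝓞 F) : F) =
      ((x i : 𝓞 F) : F) * yF N x i := by
    intro ρ i
    rw [← map_mul, mul_comm, C.xy i, map_natCast]
  apply C.ext
  · rw [AlgEquiv.mul_apply, AlgEquiv.mul_apply]
    rcases z_or φ σ with h | h <;> rcases z_or φ τ with h' | h' <;>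
      simp only [h, h', map_pow]
  · intro i
    rw [AlgEquiv.mul_apply, AlgEquiv.mul_apply]
    have hx := C.x0 i
    have hy0 := C.y0 i
    have e1 := C.kv_spec σ i
    have e2 := C.kv_spec τ i
    have y1 := hy σ i
    have y2 := hy τ i
    have A3 := zpow3 φ (C.kv σ i).val
    have B3 := zpow3 φ (C.kv τ i).val
    have zA : ∀ ρ : F ≃ₐ[ℚ] F, ρ (zF φ) = zF φ ^ 2 → ∀ n : ℕ, ρ (zF φ ^ n) = (zF φ ^ n) ^ 2 := by
      intro ρ hρ n
      rw [map_pow, hρ, ← pow_mul, ← pow_mul, mul_comm]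
    by_cases h : σ (zF φ) = zF φ <;> by_cases h' : τ (zF φ) = zF φ
    · rw [if_pos h] at e1
      rw [if_pos h'] at e2
      rw [e1, e2, map_mul, map_mul, map_pow, map_pow, h, h', e1, e2]
      ring
    · rw [if_pos h] at e1
      rw [if_neg h'] at e2
      rw [e1] at y1
      have g2 := zA τ ((z_or φ τ).resolve_left h')
      rw [e1, e2, map_mul, map_mul, map_pow, h, g2, e2]
      have : σ (yF N x i) = (zF φ ^ (C.kv σ i).val) ^ 2 * yF N x i := by
        apply mul_right_cancel₀ hx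
        linear_combination (zF φ ^ (C.kv σ i).val) ^ 2 * y1 -
          (σ (yF N x i) * ((x i : 𝓞 F) : F)) * A3
      rw [this]
      ring
    · rw [if_neg h] at e1
      rw [if_pos h'] at e2
      rw [e2] at y2
      have g1 := zA σ ((z_or φ σ).resolve_left h)
      rw [e1, e2, map_mul, map_mul, map_pow _ _ (C.kv σ i).val, h', g1, e1]
      have : τ (yF N x i) = (zF φ ^ (C.kv τ i).val) ^ 2 * yF N x i := by
        apply mul_right_cancel₀ hx
        linear_combination (zF φ ^ (C.kv τ i).val) ^ 2 * y2 -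
          (τ (yF N x i) * ((x i : 𝓞 F) : F)) * B3
      rw [this]
      ring
    · rw [if_neg h] at e1
      rw [if_neg h'] at e2
      rw [e1] at y1
      rw [e2] at y2
      have g1 := zA σ ((z_or φ σ).resolve_left h)
      have g2 := zA τ ((z_or φ τ).resolve_left h')
      rw [e1, e2, map_mul, map_mul, g1, g2]
      have a1 : σ (yF N x i) = (zF φ ^ (C.kv σ i).val) ^ 2 * ((x i : 𝓞 F) : F) := by
        apply mul_right_cancel₀ hy0
        linear_combination (zF φ ^ (C.kv σ i).val) ^ 2 * y1 -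
          (σ (yF N x i) * yF N x i) * A3
      have a2 : τ (yF N x i) = (zF φ ^ (C.kv τ i).val) ^ 2 * ((x i : 𝓞 F) : F) := by
        apply mul_right_cancel₀ hy0
        linear_combination (zF φ ^ (C.kv τ i).val) ^ 2 * y2 -
          (τ (yF N x i) * yF N x i) * B3
      rw [a1, a2]
      ring

end Pool.Agent.V5helper41.SB
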