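import Pool.Agent.V5helper41.SB.Mw
import Pool.Agent.V5helper41.ST.RkQ

/-!
# Equivariant homomorphisms from the points of `E_D` over an extension
-/

set_option autoImplicit false
set_option linter.unusedSectionVars false

open WeierstrassCurve

namespace Pool.Agent.V5helper41.SB

open Pool.Agent.TH841.NF (Sc)
open Pool.Agent.R432.C
open Pool.Agent.V5helper41.ST
open scoped Classical

section fix

variable {K F : Type} [Field K] [CharZero K] [Field F] [CharZero F] [Algebra K F]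

/-- the multiples of the points are fixed by the automorphisms that fix `K` -/
theorem stab_fix {D : K} {a : F} (ha : a = algebraMap K F D) {n : ℕ}
    (hst : ∀ P : (ED (algebraMap K F D)).toAffine.Point, ∃ Q, BC (F := F) D Q = n • P)
    (P : (ED a).toAffine.Point) (σ : F →+* F)
    (hσ : ∀ y : K, σ (algebraMap K F y) = algebraMap K F y) (S : Sc σ 1 (ED a) (ED a)) :
    tH S (n • P) = n • P := by
  subst ha
  obtain ⟨Q, hQ⟩ := hst P
  rw [← hQ]
  rcases Q with _ | ⟨x, y, h⟩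
  · rfl
  · obtain ⟨h', e⟩ := tH_some (sED (algebraMap K F) (one_ne_zero) (by
      rw [one_pow, mul_one] : algebraMap K F D = algebraMap K F D * 1 ^ 3)) x y h
    have h1 : BC (F := F) D (.some x y h) = .some _ _ h' := e
    rw [h1]
    obtain ⟨h2, e2⟩ := tH_some S _ _ h'
    rw [e2, Affine.Point.some.injEq]
    constructor
    · rw [one_pow, mul_one, mul_one, hσ]
    · rw [one_pow, mul_one, mul_one, hσ]

end fix

variable {k F : Type} [Field k] [CharZero k] [Field F] [CharZero F] [Algebra k F]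

/-- the action on the points -/
noncomputable def actP (D : k) (a : F) (ha : a = algebraMap k F D) (σ : F ≃ₐ[k] F) :
    (ED a).toAffine.Point →+ (ED a).toAffine.Point :=
  tH (sED (σ : F →+* F) one_ne_zero (by
    rw [one_pow, mul_one, ha]
    exact (σ.commutes D).symm))

lemma actP_some (D : k) {a : F} (ha : a = algebraMap k F D) (σ : F ≃ₐ[k] F) (x y : F)
    (h : (ED a).toAffine.Nonsingular x y) :
    ∃ h', actP D a ha σ (.some x y h) = .some (σ x) (σ y) h' := by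
  have S : Sc (σ : F →+* F) 1 (ED a) (ED a) := sED (σ : F →+* F) one_ne_zero (by
    rw [one_pow, mul_one, ha]
    exact (σ.commutes D).symm)
  obtain ⟨h1, e1⟩ := tH_some S x y h
  have e2 : (σ : F →+* F) x * 1 ^ 2 = σ x := by rw [one_pow, mul_one]; rfl
  have e3 : (σ : F →+* F) y * 1 ^ 3 = σ y := by rw [one_pow, mul_one]; rfl
  refine ⟨by rw [← e2, ← e3]; exact h1, ?_⟩
  unfold actP
  rw [e1, Affine.Point.some.injEq]
  exact ⟨e2, e3⟩

theorem mw_rank [FiniteDimensional k F] [IsGalois k F] {ω : F} (hω : ω ^ 2 + ω + 1 = 0)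
    {s₀ : F ≃ₐ[k] F} (hs₀ : s₀ ω ≠ ω) {D : k} (hD : D ≠ 0) {a : F} (ha : a = algebraMap k F D)
    {n : ℕ} (hn : n ≠ 0) (hst : ∀ (P : (ED a).toAffine.Point) (σ : F ≃ₐ[k] F), σ ω = ω →
      actP D a ha σ (n • P) = n • P) {b : ℕ} (ρ : (F ≃ₐ[k] F) →* Matrix (Fin b) (Fin b) ℂ) {r : ℕ}
    (hr : Module.rank ℤ (ED D).toAffine.Point = r) :
    Module.rank ℂ (Eq (actP D a ha) ρ) =
      ((r * Module.finrank ℂ (Fx (fun σ : F ≃ₐ[k] F => σ ω = ω) ρ) : ℕ) : Cardinal) := by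
  have ha0 : a ≠ 0 := by rw [ha]; exact (map_ne_zero _).2 hD
  have hω3 := cube_of hω
  have hω0 : ω ≠ 0 := by
    rintro rfl
    norm_num at hω
  have hroot : ∀ g : F ≃ₐ[k] F, g ω = ω ∨ g ω = ω ^ 2 := by
    intro g
    have h1 : (g ω) ^ 2 + g ω + 1 = 0 := by
      rw [← map_pow, ← map_add, ← map_one g, ← map_add, hω, map_zero]
    have h2 : (g ω - ω) * (g ω - ω ^ 2) = 0 := by
      linear_combination h1 - (g ω + 1 - ω) * hω
    rcases mul_eq_zero.1 h2 with h | h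
    · exact Or.inl (sub_eq_zero.1 h)
    · exact Or.inr (sub_eq_zero.1 h)
  have hsq : ω ^ 2 ≠ ω := by
    intro h
    have h1 : ω * (ω - 1) = 0 := by linear_combination h
    rcases mul_eq_zero.1 h1 with h2 | h2
    · exact hω0 h2
    · rw [sub_eq_zero.1 h2] at hω
      norm_num at hω
  have hgg : ∀ g : F ≃ₐ[k] F, g ω ≠ ω → g ω = ω ^ 2 ∧ g (ω ^ 2) = ω := by
    intro g hg
    have h1 := (hroot g).resolve_left hg
    refine ⟨h1, ?_⟩
    rw [map_pow, h1]
    linear_combination ω * hω3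
  -- the multiplication with `ω`
  have S : Sc (RingHom.id F) ω (ED a) (ED a) := sED _ hω0 (by
    rw [RingHom.id_apply, hω3, mul_one])
  set A : (ED a).toAffine.Point →+ (ED a).toAffine.Point := tH S with hA
  have hAs : ∀ x y (h : (ED a).toAffine.Nonsingular x y), ∃ h',
      A (.some x y h) = .some (ω ^ 2 * x) y h' := by
    intro x y h
    obtain ⟨h1, e1⟩ := tH_some S x y h
    have e2 : (RingHom.id F) x * ω ^ 2 = ω ^ 2 * x := by rw [RingHom.id_apply, mul_comm]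
    have e3 : (RingHom.id F) y * ω ^ 3 = y := by rw [RingHom.id_apply, hω3, mul_one]
    rw [hA]
    refine ⟨by rw [← e2, ← e3]; exact h1, ?_⟩
    rw [e1, Affine.Point.some.injEq]
    exact ⟨e2, e3⟩
  have hA3 : ∀ P, P + A (A P) + A P = 0 := by
    rintro (_ | ⟨x, y, h⟩)
    · change (0 : (ED a).toAffine.Point) + A (A 0) + A 0 = 0
      rw [map_zero, map_zero, add_zero, add_zero]
    · obtain ⟨h1, e1⟩ := hAs x y h
      obtain ⟨h2, e2⟩ := hAs _ _ h1
      rw [e1, e2]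
      refine add3 (V := ED a) rfl rfl rfl rfl rfl ha0 hω _ _ _ ?_ ?_
      · linear_combination (ω * x) * hω3
      · ring
  have hAA : ∀ P, A (A P) = -P - A P := by
    intro P
    have h1 := hA3 P
    have h2 : A (A P) = P + A (A P) + A P - P - A P := by abel
    rw [h2, h1]
    abel
  set s := actP D a ha with hs
  have hss : ∀ (σ : F ≃ₐ[k] F) x y (h : (ED a).toAffine.Nonsingular x y), ∃ h',
      s σ (.some x y h) = .some (σ x) (σ y) h' := fun σ x y h => actP_some D ha σ x y h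
  have hsmul : ∀ (σ τ : F ≃ₐ[k] F) P, s (σ * τ) P = s σ (s τ P) := by
    intro σ τ
    rintro (_ | ⟨x, y, h⟩)
    · change s (σ * τ) 0 = s σ (s τ 0)
      simp only [map_zero]
    · obtain ⟨h1, e1⟩ := hss (σ * τ) x y h
      obtain ⟨h2, e2⟩ := hss τ x y h
      obtain ⟨h3, e3⟩ := hss σ _ _ h2
      rw [e1, e2, e3, Affine.Point.some.injEq]
      exact ⟨rfl, rfl⟩
  have hsA : ∀ σ : F ≃ₐ[k] F, σ ω = ω → ∀ P, s σ (A P) = A (s σ P) := by
    intro σ hσ
    rintro (_ | ⟨x, y, h⟩)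
    · change s σ (A 0) = A (s σ 0)
      simp only [map_zero]
    · obtain ⟨h1, e1⟩ := hAs x y h
      obtain ⟨h2, e2⟩ := hss σ _ _ h1
      obtain ⟨h3, e3⟩ := hss σ x y h
      obtain ⟨h4, e4⟩ := hAs _ _ h3
      rw [e1, e2, e3, e4, Affine.Point.some.injEq]
      refine ⟨?_, rfl⟩
      rw [map_mul, map_pow, hσ]
  have hsA' : ∀ σ : F ≃ₐ[k] F, σ ω ≠ ω → ∀ P, s σ (A P) = A (A (s σ P)) := by
    intro σ hσ
    rintro (_ | ⟨x, y, h⟩)
    · change s σ (A 0) = A (A (s σ 0))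
      simp only [map_zero]
    · obtain ⟨h1, e1⟩ := hAs x y h
      obtain ⟨h2, e2⟩ := hss σ _ _ h1
      obtain ⟨h3, e3⟩ := hss σ x y h
      obtain ⟨h4, e4⟩ := hAs _ _ h3
      obtain ⟨h5, e5⟩ := hAs _ _ h4
      rw [e1, e2, e3, e4, e5, Affine.Point.some.injEq]
      refine ⟨?_, rfl⟩
      rw [map_mul, (hgg σ hσ).2]
      linear_combination (-ω * σ x) * hω3
  set θ : (ED a).toAffine.Point →+ (ED a).toAffine.Point := A - A.comp A with hθ
  have hθa : ∀ P, θ P = A P - A (A P) := fun P => rfl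
  have hθθ : ∀ P, θ (θ P) = -((3 : ℕ) • P) := by
    intro P
    simp only [hθa, map_sub, map_neg, hAA]
    abel
  have hsθ : ∀ σ : F ≃ₐ[k] F, σ ω = ω → ∀ P, s σ (θ P) = θ (s σ P) := by
    intro σ hσ P
    rw [hθa, hθa, map_sub, hsA σ hσ, hsA σ hσ, hsA σ hσ]
  have hsθ' : ∀ σ : F ≃ₐ[k] F, σ ω ≠ ω → ∀ P, s σ (θ P) = -θ (s σ P) := by
    intro σ hσ P
    rw [hθa, hθa, map_sub, hsA' σ hσ, hsA' σ hσ, hsA' σ hσ]
    have h1 : A (A (A (A (s σ P)))) = A (s σ P) := by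
      rw [hAA (A (A (s σ P))), hAA (A (s σ P)), hAA]
      abel
    rw [h1]
    abel
  -- the base change
  have Sb : Sc (algebraMap k F) 1 (ED D) (ED a) := sED _ one_ne_zero (by
    rw [one_pow, mul_one, ha])
  set β : (ED D).toAffine.Point →+ (ED a).toAffine.Point := tH Sb with hb
  have hbs : ∀ x y (h : (ED D).toAffine.Nonsingular x y), ∃ h',
      β (.some x y h) = .some (algebraMap k F x) (algebraMap k F y) h' := by
    intro x y h
    obtain ⟨h1, e1⟩ := tH_some Sb x y h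
    have e2 : algebraMap k F x * 1 ^ 2 = algebraMap k F x := by rw [one_pow, mul_one]
    have e3 : algebraMap k F y * 1 ^ 3 = algebraMap k F y := by rw [one_pow, mul_one]
    rw [hb]
    refine ⟨by rw [← e2, ← e3]; exact h1, ?_⟩
    rw [e1, Affine.Point.some.injEq]
    exact ⟨e2, e3⟩
  have hbinj : ∀ P, β P = 0 → P = 0 := by
    rintro (_ | ⟨x, y, h⟩) hP
    · rfl
    · exfalso
      obtain ⟨h1, e1⟩ := hbs x y h
      rw [e1] at hP
      exact Affine.Point.some_ne_zero h1 hP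
  have hsb : ∀ (σ : F ≃ₐ[k] F) P, s σ (β P) = β P := by
    intro σ
    rintro (_ | ⟨x, y, h⟩)
    · change s σ (β 0) = β 0
      rw [map_zero, map_zero]
    · obtain ⟨h1, e1⟩ := hbs x y h
      obtain ⟨h2, e2⟩ := hss σ _ _ h1
      rw [e1, e2, Affine.Point.some.injEq]
      exact ⟨σ.commutes x, σ.commutes y⟩
  have hdesc : ∀ P, (∀ σ, s σ P = P) → ∃ Q, β Q = P := by
    rintro (_ | ⟨X, Y, h⟩) hP
    · exact ⟨0, map_zero β⟩
    · have h1 : ∀ g : F ≃ₐ[k] F, g X = X ∧ g Y = Y := by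
        intro g
        have h2 := hP g
        obtain ⟨h3, e3⟩ := hss g X Y h
        rw [e3, Affine.Point.some.injEq] at h2
        exact h2
      obtain ⟨X0, rfl⟩ := (IsGalois.mem_range_algebraMap_iff_fixed (F := k) X).2 fun g => (h1 g).1
      obtain ⟨Y0, rfl⟩ := (IsGalois.mem_range_algebraMap_iff_fixed (F := k) Y).2 fun g => (h1 g).2
      have hns : (ED D).toAffine.Nonsingular X0 Y0 := by
        apply (Pool.Agent.TH841.NF.ns_iff Sb X0 Y0).1
        rw [one_pow, one_pow, mul_one, mul_one]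
        exact h
      refine ⟨.some X0 Y0 hns, ?_⟩
      obtain ⟨h3, e3⟩ := hbs X0 Y0 hns
      exact e3
  -- the elements that do not fix `ω`
  have hN2 : (s₀ * s₀) ω = ω := by
    rw [AlgEquiv.mul_apply, (hgg s₀ hs₀).1, (hgg s₀ hs₀).2]
  have hinv : s₀⁻¹ (ω ^ 2) = ω := by
    rw [← (hgg s₀ hs₀).1, ← AlgEquiv.mul_apply, inv_mul_cancel, AlgEquiv.one_apply]
  have hN3 : ∀ σ : F ≃ₐ[k] F, ¬ σ ω = ω → (s₀⁻¹ * σ) ω = ω := by
    intro σ hσ
    rw [AlgEquiv.mul_apply, (hgg σ hσ).1, hinv]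
  have hN1 : ∀ σ : F ≃ₐ[k] F, σ ω = ω → (s₀⁻¹ * σ * s₀) ω = ω := by
    intro σ hσ
    rw [AlgEquiv.mul_apply, AlgEquiv.mul_apply, (hgg s₀ hs₀).1, map_pow, hσ, hinv]
  refine eq_rank (ι := β) (κ := θ.comp β) ρ hsb (fun σ hσ P => ?_) (fun σ hσ P => ?_)
    (c := 6 * n) (mul_ne_zero (by norm_num) hn) (fun P => ?_) (c' := 6) (by norm_num)
    (fun P Q h => ?_) hs₀ hN1 hN2 hN3 hr
  · show s σ (θ (β P)) = θ (β P)
    rw [hsθ σ hσ, hsb]
  · show s σ (θ (β P)) = -θ (β P)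
    rw [hsθ' σ hσ, hsb]
  · obtain ⟨R, hR⟩ : ∃ R, R = n • P := ⟨_, rfl⟩
    have hRN : ∀ σ : F ≃ₐ[k] F, σ ω = ω → s σ R = R := by
      intro σ hσ
      rw [hR]
      exact hst P σ hσ
    have hsR : ∀ σ : F ≃ₐ[k] F, ¬ σ ω = ω → s σ R = s s₀ R := by
      intro σ hσ
      have e : σ = s₀ * (s₀⁻¹ * σ) := by group
      rw [e, hsmul, hRN _ (hN3 σ hσ)]
    have hsR1 : ∀ σ : F ≃ₐ[k] F, σ ω = ω → s σ (s s₀ R) = s s₀ R := by
      intro σ hσ
      rw [← hsmul]
      refine hsR _ fun h => hs₀ ?_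
      have h1 : (σ * s₀) ω = ω := h
      rw [AlgEquiv.mul_apply, (hgg s₀ hs₀).1, map_pow, hσ] at h1
      exact absurd h1 hsq
    have hsR2 : ∀ σ : F ≃ₐ[k] F, ¬ σ ω = ω → s σ (s s₀ R) = R := by
      intro σ hσ
      rw [← hsmul]
      refine hRN _ ?_
      rw [AlgEquiv.mul_apply, (hgg s₀ hs₀).1, (hgg σ hσ).2]
    obtain ⟨P1, hP1⟩ := hdesc (R + s s₀ R) fun σ => by
      by_cases hσ : σ ω = ω
      · rw [map_add, hRN σ hσ, hsR1 σ hσ]
      · rw [map_add, hsR σ hσ, hsR2 σ hσ, add_comm]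
    obtain ⟨Q1, hQ1⟩ := hdesc (θ (R - s s₀ R)) fun σ => by
      by_cases hσ : σ ω = ω
      · rw [hsθ σ hσ, map_sub, hRN σ hσ, hsR1 σ hσ]
      · rw [hsθ' σ hσ, map_sub, hsR σ hσ, hsR2 σ hσ, ← map_neg, neg_sub]
    refine ⟨(3 : ℕ) • P1, -Q1, ?_⟩
    show β ((3 : ℕ) • P1) + θ (β (-Q1)) = _
    rw [map_nsmul, map_neg, map_neg, hP1, hQ1, hθθ, mul_smul, ← hR]
    abel
  · have h' : β P + θ (β Q) = 0 := h
    have h1 : β P - θ (β Q) = 0 := by
      have h2 := congrArg (s s₀) h'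
      rw [map_add, hsθ' s₀ hs₀, hsb, hsb, map_zero] at h2
      rw [sub_eq_add_neg]
      exact h2
    have h2 : β ((2 : ℕ) • P) = 0 := by
      rw [map_nsmul]
      have : (2 : ℕ) • β P = (β P + θ (β Q)) + (β P - θ (β Q)) := by abel
      rw [this, h', h1, add_zero]
    have h3 : β ((6 : ℕ) • Q) = 0 := by
      rw [map_nsmul]
      have h4 : (2 : ℕ) • θ (β Q) = (β P + θ (β Q)) - (β P - θ (β Q)) := by abel
      rw [h', h1, sub_zero] at h4
      have h5 : θ ((2 : ℕ) • θ (β Q)) = 0 := by rw [h4, map_zero]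
      rw [map_nsmul, hθθ] at h5
      have h6 : (6 : ℕ) • β Q = -((2 : ℕ) • -((3 : ℕ) • β Q)) := by abel
      rw [h6, h5, neg_zero]
    have h4 := hbinj _ h2
    have h5 := hbinj _ h3
    refine ⟨?_, h5⟩
    have h6 : (6 : ℕ) • P = (3 : ℕ) • ((2 : ℕ) • P) := by abel
    rw [h6, h4, smul_zero]

end Pool.Agent.V5helper41.SB
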