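import Pool.Agent.V5helper41.ST.AbL

/-!
# The weights of the natural numbers and the properties of the radicands
-/

set_option autoImplicit false
set_option linter.unusedSectionVars false

open NumberField IsDedekindDomain

namespace Pool.Agent.V5helper41.SB

open scoped Classical
open Pool.Agent.Y692.QS (Ei w nr toC star_w mul_star nr_star nr_neg nr_nat nr_nonneg)
open Pool.Agent.Y715.T.RecG (Pq)
open Pool.Agent.Y696.CT (inert im_star_ne)
open Pool.Agent.Y350.CT (pq_star)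
open Pool.Agent.R432.C (pq_dvd)
open Pool.Agent.R432.V (nat_dvd_nat two_primes)
open Pool.Agent.Y703.CX (pp)
open Pool.Agent.Y333.CX (pp_spec)
open Pool.Agent.Y699.E (PD mem_PD exists_PP pq_cop)
open Pool.Agent.V5helper41.ST

/-! ### the primes of `ℤ[ω]` -/

/-- the primes above a prime number -/
lemma pq_above {α : Ei} (hα : Pq α) {p : ℕ} (hp : p.Prime) (h : α ∣ ((p : ℕ) : Ei)) :
    (p % 3 = 1 ∧ nr α = p ∧ star α ≠ α ∧ α * star α = ((p : ℕ) : Ei)) ∨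
      (p % 3 = 2 ∧ α = -((p : ℕ) : Ei) ∧ star α = α) := by
  have hp3 : p ≠ 3 := by
    rintro rfl
    exact hα.norm (by exact_mod_cast h)
  have hm : p % 3 = 1 ∨ p % 3 = 2 := by
    have : p % 3 ≠ 0 := fun h => hp3
      ((Nat.prime_dvd_prime_iff_eq Nat.prime_three hp).1 (Nat.dvd_of_mod_eq_zero h)).symm
    omega
  rcases hm with hm | hm
  · left
    obtain ⟨hβ, hn⟩ := pp_spec hp hm
    have hprod : pp p * star (pp p) = ((p : ℕ) : Ei) := by
      rw [mul_star, hn, Int.cast_natCast]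
    have key : nr α = p := by
      rw [← hprod] at h
      rcases hα.prime.dvd_or_dvd h with h6 | h6
      · rw [pq_dvd hα hβ h6, hn]
      · rw [pq_dvd hα (pq_star hβ) h6, nr_star, hn]
    refine ⟨hm, key, im_star_ne hp key, ?_⟩
    rw [mul_star, key, Int.cast_natCast]
  · right
    have h1 : α ∣ -((p : ℕ) : Ei) := by rw [dvd_neg]; exact h
    have h2 := pq_dvd hα (inert hp hm) h1
    refine ⟨hm, h2, ?_⟩
    rw [h2, star_neg, star_natCast]

lemma prime_dvd_nat {π : Ei} (hπ : Prime π) {D : ℕ} (hD : D ≠ 0) (h : π ∣ ((D : ℕ) : Ei)) :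
    ∃ q : ℕ, q.Prime ∧ q ∣ D ∧ π ∣ ((q : ℕ) : Ei) := by
  have h7 : ((D : ℕ) : Ei) = ((D.primeFactorsList.map (fun q : ℕ => (q : Ei))).prod) := by
    conv_lhs => rw [← Nat.prod_primeFactorsList hD]
    rw [Nat.cast_list_prod]
  rw [h7] at h
  obtain ⟨y, hy, hyα⟩ := (hπ.dvd_prod_iff).1 h
  obtain ⟨q, hq, rfl⟩ := List.mem_map.1 hy
  exact ⟨q, Nat.prime_of_mem_primeFactorsList hq, Nat.dvd_of_mem_primeFactorsList hq, hyα⟩

/-- a cube-free number is cube-free in `ℤ[ω]` -/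
lemma cf_nat {D : ℕ} (h3 : ¬ 3 ∣ D) (hcf : ∀ n : ℕ, n ^ 3 ∣ D → n = 1) {x : Ei}
    (hx : x ^ 3 ∣ ((D : ℕ) : Ei)) : IsUnit x := by
  have hD : D ≠ 0 := by
    rintro rfl
    exact absurd (hcf 2 (dvd_zero _)) (by norm_num)
  have hD' : ((D : ℕ) : Ei) ≠ 0 := by
    intro h
    have h1 := nat_dvd_nat (a := 0) (b := D) (by rw [h]; exact dvd_zero _)
    exact hD (Nat.eq_zero_of_zero_dvd h1)
  by_contra hu
  have hx0 : x ≠ 0 := by
    rintro rfl
    rw [zero_pow (by norm_num)] at hx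
    exact hD' (zero_dvd_iff.1 hx)
  obtain ⟨ρ, hρ, hρx⟩ := WfDvdMonoid.exists_irreducible_factor hu hx0
  have hρp : Prime ρ := hρ.prime
  have hρD : ρ ∣ ((D : ℕ) : Ei) := (hρx.trans (dvd_pow_self x (by norm_num))).trans hx
  have hρ3 : ¬ ρ ∣ 3 := by
    intro h
    have h5 : IsCoprime (3 : ℤ) (D : ℤ) := by
      rw [Int.isCoprime_iff_gcd_eq_one]
      have h6 : Nat.Coprime 3 D := (Nat.Prime.coprime_iff_not_dvd Nat.prime_three).2 h3
      exact_mod_cast h6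
    obtain ⟨a, b, hab⟩ := h5
    apply hρp.not_isUnit
    apply isUnit_of_dvd_one
    have h7 : ((a * 3 + b * D : ℤ) : Ei) = 1 := by rw [hab]; norm_num
    rw [← h7]
    push_cast
    exact dvd_add (h.mul_left _) (hρD.mul_left _)
  obtain ⟨π, hπ, hass⟩ := exists_PP hρp hρ3
  have h1 : π ^ 3 ∣ ((D : ℕ) : Ei) := (pow_dvd_pow_of_dvd (hass.dvd.trans hρx) 3).trans hx
  obtain ⟨p, hp, hd, -⟩ := Pool.Agent.Y715.T.Rec.exists_p hπ.prime
  have hnat : ((p : ℕ) : Ei) ^ 3 ∣ ((D : ℕ) : Ei) → False := by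
    intro h
    have h2 : p ^ 3 ∣ D := nat_dvd_nat (by push_cast; exact h)
    have h4 := hcf p h2
    rw [h4] at hp
    exact Nat.not_prime_one hp
  rcases pq_above hπ hp hd with ⟨-, h2, h4, h5⟩ | ⟨-, h2, -⟩
  · apply hnat
    have h6 : star π ^ 3 ∣ ((D : ℕ) : Ei) := by
      obtain ⟨c, hc⟩ := h1
      refine ⟨star c, ?_⟩
      have h7 := congrArg star hc
      rwa [star_natCast, star_mul', star_pow] at h7
    have h8 : IsCoprime (π ^ 3) (star π ^ 3) := (pq_cop hπ (pq_star hπ) h4.symm).pow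
    have h9 := h8.mul_dvd h1 h6
    rwa [← mul_pow, h5] at h9
  · apply hnat
    rw [h2, neg_pow, neg_one_pow_eq_neg_one_iff_odd (by norm_num) |>.2 (by decide), neg_one_mul,
      neg_dvd] at h1
    exact h1

/-! ### the weights -/

section pw

variable {M : Finset Ei}

lemma pw_split (u : Ei → ZMod 3) {x : Ei} (hx : x ∈ M) :
    pw M u = x ^ (u x).val * ∏ y ∈ M.erase x, y ^ (u y).val := by
  unfold pw
  rw [← Finset.mul_prod_erase _ _ hx]

lemma erase_ndvd (hM : ∀ p ∈ M, Pq p) (u : Ei → ZMod 3) {x : Ei} (hx : x ∈ M) :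
    ¬ x ∣ ∏ y ∈ M.erase x, y ^ (u y).val := by
  intro h
  obtain ⟨y, hy, hxy⟩ := ((hM x hx).prime.dvd_finsetProd_iff _).1 h
  have h1 := (hM x hx).prime.dvd_of_dvd_pow hxy
  exact Finset.ne_of_mem_erase hy (pq_dvd (hM x hx) (hM y (Finset.mem_of_mem_erase hy)) h1).symm

lemma pw_inj (hM : ∀ p ∈ M, Pq p) {u v : Ei → ZMod 3} (h : pw M u = pw M v) :
    ∀ x ∈ M, u x = v x := by
  have key : ∀ u v : Ei → ZMod 3, pw M u = pw M v → ∀ x ∈ M, ¬ (u x).val < (v x).val := by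
    intro u v h x hx hlt
    obtain ⟨e, he⟩ := Nat.exists_eq_add_of_lt hlt
    rw [pw_split u hx, pw_split v hx, he, add_assoc, pow_add, mul_assoc] at h
    have h1 := mul_left_cancel₀ (pow_ne_zero _ (hM x hx).prime.ne_zero) h
    apply erase_ndvd hM u hx
    rw [h1, pow_succ]
    exact ((dvd_refl x).mul_left _).mul_right _
  intro x hx
  have h1 := key u v h x hx
  have h2 := key v u h.symm x hx
  exact ZMod.val_injective 3 (by omega)

lemma star_pw (hMs : ∀ p ∈ M, star p ∈ M) (u : Ei → ZMod 3) :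
    star (pw M u) = pw M (fun x => u (star x)) := by
  have h : ∀ S : Finset Ei, star (∏ x ∈ S, x ^ (u x).val) = ∏ x ∈ S, star x ^ (u x).val := by
    intro S
    induction S using Finset.induction_on with
    | empty => rw [Finset.prod_empty, Finset.prod_empty, star_one]
    | insert a S ha ih =>
      rw [Finset.prod_insert ha, Finset.prod_insert ha, star_mul', ih, star_pow]
  unfold pw
  rw [h]
  refine Finset.prod_nbij' star star (fun x hx => hMs x hx) (fun x hx => hMs x hx)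
    (fun x _ => star_star x) (fun x _ => star_star x) (fun x _ => ?_)
  show star x ^ (u x).val = star x ^ (u (star (star x))).val
  rw [star_star]

/-- the weights of a number that is equal to its conjugate are symmetric -/
lemma w_symm (hM : ∀ p ∈ M, Pq p) (hMs : ∀ p ∈ M, star p ∈ M) {u : Ei → ZMod 3} {D : Ei}
    (hD : D = pw M u ∨ D = -pw M u) (hs : star D = D) : ∀ x ∈ M, u (star x) = u x := by
  have h1 : star (pw M u) = pw M u := by
    rcases hD with h | h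
    · rw [← h, hs]
    · have h2 : pw M u = -D := by rw [h, neg_neg]
      rw [h2, star_neg, hs]
  rw [star_pw hMs] at h1
  exact pw_inj hM h1

end pw

/-- the class -/
structure Cn (m p₀ D : ℕ) : Prop where
  cf : ∀ n : ℕ, n ^ 3 ∣ D → n = 1
  h3 : ¬ 3 ∣ D
  h1 : D % 9 ≠ 1
  h8 : D % 9 ≠ 8
  hp : p₀ ∣ D
  hm : ∀ p : ℕ, p.Prime → p ∣ D → p ∣ m

lemma Cn.ne {m p₀ D : ℕ} (h : Cn m p₀ D) : D ≠ 0 := by
  rintro rfl
  exact absurd (h.cf 2 (dvd_zero _)) (by norm_num)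

lemma ne_ei {m : ℕ} (hm : m ≠ 0) : ((m : ℕ) : Ei) ≠ 0 := by
  intro h
  have h1 := nat_dvd_nat (a := 0) (b := m) (by rw [h]; exact dvd_zero _)
  exact hm (Nat.eq_zero_of_zero_dvd h1)

lemma PD_pq {m : ℕ} (hm : m ≠ 0) : ∀ p ∈ PD ((m : ℕ) : Ei), Pq p := fun _ hp =>
  ((mem_PD (ne_ei hm)).1 hp).1

lemma PD_star {m : ℕ} (hm : m ≠ 0) : ∀ p ∈ PD ((m : ℕ) : Ei), star p ∈ PD ((m : ℕ) : Ei) := by
  intro p hp
  obtain ⟨h1, c, hc⟩ := (mem_PD (ne_ei hm)).1 hp
  refine (mem_PD (ne_ei hm)).2 ⟨pq_star h1, star c, ?_⟩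
  have h7 := congrArg star hc
  rwa [star_natCast, star_mul'] at h7

/-- the weights of an element of the class -/
theorem weights {m p₀ : ℕ} (hm : m ≠ 0) {z : Ei} (hz : Pq z)
    (hz0 : z ∣ ((p₀ : ℕ) : Ei)) {D : ℕ} (hD : Cn m p₀ D) : ∃ u : Ei → ZMod 3,
    (((D : ℕ) : Ei) = pw (PD ((m : ℕ) : Ei)) u ∨ ((D : ℕ) : Ei) = -pw (PD ((m : ℕ) : Ei)) u) ∧
      ¬ (9 : ℤ) ∣ nr (pw (PD ((m : ℕ) : Ei)) u) - 1 ∧ u z ≠ 0 ∧ u (star z) = u z := by
  have hm' := ne_ei hm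
  have hD3 := hD.h3
  have hpd : ∀ q : Ei, Prime q → q ∣ ((D : ℕ) : Ei) → q ∣ ((m : ℕ) : Ei) := by
    intro q hq hqd
    obtain ⟨p, hp, hpD, hqp⟩ := prime_dvd_nat hq hD.ne hqd
    obtain ⟨c, hc⟩ := hD.hm p hp hpD
    refine hqp.trans ⟨(c : Ei), ?_⟩
    rw [hc]
    push_cast
    rfl
  obtain ⟨u, hu, h9⟩ := br hm' (D := ((D : ℕ) : Ei)) (by
    have h : D % 3 = 1 ∨ D % 3 = 2 := by omega
    rcases h with h | h
    · left
      refine ⟨((D / 3 : ℕ) : Ei), ?_⟩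
      have h1 : D = 3 * (D / 3) + 1 := by omega
      conv_lhs => rw [h1]
      push_cast
      ring
    · right
      refine ⟨((D / 3 + 1 : ℕ) : Ei), ?_⟩
      have h1 : D = 3 * (D / 3) + 2 := by omega
      conv_lhs => rw [h1]
      push_cast
      ring) (fun x hx => cf_nat hD.h3 hD.cf hx) (by
    rw [nr_nat]
    intro h
    have h1 := hD.h1
    have h8 := hD.h8
    obtain ⟨q, r, hqr, hr⟩ : ∃ q r : ℕ, D = 9 * q + r ∧ r < 9 := ⟨D / 9, D % 9, by omega, by omega⟩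
    have hr1 : D % 9 = r := by omega
    rw [hr1] at h1 h8
    have h2 : (9 : ℤ) ∣ (r : ℤ) ^ 2 - 1 := by
      have e : (D : ℤ) ^ 2 - 1 = 9 * (9 * (q : ℤ) ^ 2 + 2 * q * r) + ((r : ℤ) ^ 2 - 1) := by
        rw [hqr]
        push_cast
        ring
      rw [e] at h
      exact (Int.dvd_add_right (dvd_mul_right _ _)).1 h
    interval_cases r
    all_goals omega) hpd
  refine ⟨u, hu, h9, ?_, ?_⟩
  · have h1 : z ∣ pw (PD ((m : ℕ) : Ei)) u := by
      obtain ⟨c, hc⟩ := hD.hp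
      have h2 : z ∣ ((D : ℕ) : Ei) := hz0.trans ⟨(c : Ei), by rw [hc]; push_cast; rfl⟩
      rcases hu with h | h
      · rwa [h] at h2
      · rw [h] at h2
        exact (dvd_neg).1 h2
    unfold pw at h1
    obtain ⟨y, hy, hzy⟩ := (hz.prime.dvd_finsetProd_iff _).1 h1
    have h2 := pq_dvd hz (PD_pq hm y hy) (hz.prime.dvd_of_dvd_pow hzy)
    rw [← h2] at hzy
    intro h0
    rw [h0, ZMod.val_zero, pow_zero] at hzy
    exact hz.prime.not_dvd_one hzy
  · refine w_symm (PD_pq hm) (PD_star hm) hu (star_natCast D) z ?_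
    refine (mem_PD hm').2 ⟨hz, ?_⟩
    refine hpd z hz.prime ?_
    obtain ⟨c, hc⟩ := hD.hp
    exact hz0.trans ⟨(c : Ei), by rw [hc]; push_cast; rfl⟩

/-- a prime above `p₀` -/
lemma exists_z {p : ℕ} (hp : p.Prime) (hp3 : p ≠ 3) : ∃ z : Ei, Pq z ∧ z ∣ ((p : ℕ) : Ei) := by
  have hm : p % 3 = 1 ∨ p % 3 = 2 := by
    have : p % 3 ≠ 0 := fun h => hp3
      ((Nat.prime_dvd_prime_iff_eq Nat.prime_three hp).1 (Nat.dvd_of_mod_eq_zero h)).symm
    omega
  rcases hm with hm | hm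
  · obtain ⟨hα, hn⟩ := pp_spec hp hm
    exact ⟨_, hα, star (pp p), by rw [mul_star, hn, Int.cast_natCast]⟩
  · exact ⟨_, inert hp hm, neg_dvd.2 dvd_rfl⟩

/-! ### the radicands -/

section rad

variable {m : ℕ} {z : Ei} {Q : ℕ → Finset Ei}

/-- the norms of the elements of `Q i` are prime numbers -/
lemma nr_prime (hQ : SeqS (PD ((m : ℕ) : Ei)) z Q) {i : ℕ} {x : Ei} (hx : x ∈ Q i) :
    (nr x).natAbs.Prime ∧ (nr x).natAbs % 9 = 1 ∧ x ∣ (((nr x).natAbs : ℕ) : Ei) ∧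
      x * star x = (((nr x).natAbs : ℕ) : Ei) := by
  have hxP := (hQ i).pq x hx
  have h9 := (hQ i).nine x hx
  obtain ⟨p, hp, hd, -⟩ := Pool.Agent.Y715.T.Rec.exists_p hxP.prime
  have h0 := nr_nonneg x
  rcases pq_above hxP hp hd with ⟨-, h2, h4, h5⟩ | ⟨-, -, h4⟩
  · have e : (nr x).natAbs = p := by rw [h2, Int.natAbs_natCast]
    rw [e]
    refine ⟨hp, by omega, hd, h5⟩
  · exact absurd (by rw [h4]; exact hx) ((hQ i).st x hx)

/-- the elements of `Q i` and their norms -/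
lemma nr_eq (hQ : SeqS (PD ((m : ℕ) : Ei)) z Q) {i l : ℕ} {x y : Ei} (hx : x ∈ Q i) (hy : y ∈ Q l)
    (h : (nr x).natAbs = (nr y).natAbs) : x = y ∨ x = star y := by
  have hxP := (hQ i).pq x hx
  have hyP := (hQ l).pq y hy
  obtain ⟨-, -, h1, -⟩ := nr_prime hQ hx
  obtain ⟨-, -, -, h2⟩ := nr_prime hQ hy
  rw [h, ← h2] at h1
  rcases hxP.prime.dvd_or_dvd h1 with h3 | h3
  · exact Or.inl (pq_dvd hxP hyP h3)
  · exact Or.inr (pq_dvd hxP (pq_star hyP) h3)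

lemma dvd_NQ (hQ : SeqS (PD ((m : ℕ) : Ei)) z Q) {i p : ℕ} (hp : p.Prime) (h : p ∣ NQ Q i) :
    ∃ x ∈ Q i, (nr x).natAbs = p := by
  unfold NQ at h
  obtain ⟨x, hx, hd⟩ := (hp.prime.dvd_finsetProd_iff _).1 h
  exact ⟨x, hx, ((Nat.prime_dvd_prime_iff_eq hp (nr_prime hQ hx).1).1 hd).symm⟩

theorem NQ_sq (hQ : SeqS (PD ((m : ℕ) : Ei)) z Q) (i : ℕ) : Squarefree (NQ Q i) := by
  unfold NQ
  refine Finset.squarefree_prod_of_pairwise_isCoprime (fun x hx y hy hne => ?_)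
    fun x hx => (nr_prime hQ hx).1.prime.irreducible.squarefree
  refine Nat.coprime_iff_isRelPrime.1 ((Nat.coprime_primes (nr_prime hQ hx).1
    (nr_prime hQ hy).1).2 fun h => ?_)
  rcases nr_eq hQ hx hy h with h1 | h1
  · exact hne h1
  · exact (hQ i).st y hy (by rw [← h1]; exact hx)

theorem NQ_ne_one (hQ : SeqS (PD ((m : ℕ) : Ei)) z Q) (i : ℕ) : NQ Q i ≠ 1 := by
  intro h
  obtain ⟨x, hx⟩ := (hQ i).ne
  have h1 : (nr x).natAbs ∣ NQ Q i := Finset.dvd_prod_of_mem (fun x => (nr x).natAbs) hx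
  rw [h] at h1
  exact (nr_prime hQ hx).1.one_lt.ne' (Nat.dvd_one.1 h1)

theorem NQ_prime (hm : m ≠ 0) (hQ : SeqS (PD ((m : ℕ) : Ei)) z Q) {i p : ℕ} (hp : p.Prime)
    (h : p ∣ NQ Q i) : p % 9 = 1 ∧ ¬ p ∣ m ∧ ∀ l, l ≠ i → ¬ p ∣ NQ Q l := by
  obtain ⟨x, hx, rfl⟩ := dvd_NQ hQ hp h
  obtain ⟨h1, h2, h3, h4⟩ := nr_prime hQ hx
  have hxP := (hQ i).pq x hx
  have hMs := PD_star (m := m) hm
  refine ⟨h2, fun hd => ?_, fun l hl hd => ?_⟩
  · have h5 : x ∈ PD ((m : ℕ) : Ei) := by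
      refine (mem_PD (ne_ei hm)).2 ⟨hxP, h3.trans ?_⟩
      obtain ⟨c, hc⟩ := hd
      refine ⟨(c : Ei), ?_⟩
      have h6 : ((m : ℕ) : Ei) = (((nr x).natAbs * c : ℕ) : Ei) := by rw [← hc]
      rw [h6]
      push_cast
      rfl
    exact hQ.disjM hMs (mem_sym.2 (Or.inl hx)) h5
  · obtain ⟨y, hy, he⟩ := dvd_NQ hQ hp hd
    have h5 := nr_eq hQ hx hy he.symm
    have h6 : x ∈ sym (Q l) := by
      rcases h5 with h5 | h5
      · exact mem_sym.2 (Or.inl (by rw [h5]; exact hy))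
      · exact mem_sym.2 (Or.inr (by rw [h5, star_star]; exact hy))
    exact hl (hQ.uniq hMs (mem_sym.2 (Or.inl hx)) h6).symm

lemma dS_three (hQ : SeqS (PD ((m : ℕ) : Ei)) z Q) (i : ℕ) : (3 : Ei) ∣ dS Q i - 1 := by
  unfold dS
  have h : ∀ S : Finset Ei, (∀ x ∈ S, Pq x) → (3 : Ei) ∣ (∏ x ∈ S, x * star x ^ 2) - 1 := by
    intro S
    induction S using Finset.induction_on with
    | empty => intro _; rw [Finset.prod_empty, sub_self]; exact dvd_zero _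
    | insert a S ha ih =>
      intro hS
      rw [Finset.prod_insert ha]
      have h1 := (hS a (Finset.mem_insert_self _ _)).three
      have h2 := (pq_star (hS a (Finset.mem_insert_self _ _))).three
      have h3 := ih fun x hx => hS x (Finset.mem_insert_of_mem hx)
      set P := ∏ x ∈ S, x * star x ^ 2
      have e : a * star a ^ 2 * P - 1 = a * star a ^ 2 * (P - 1) + (a - 1) * star a ^ 2 +
          (star a - 1) * (star a + 1) := by ring
      rw [e]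
      exact dvd_add (dvd_add (h3.mul_left _) (h1.mul_right _)) (h2.mul_right _)
  exact h _ fun x hx => (hQ i).pq x hx

/-- the cubics are cyclic -/
theorem disc (hQ : SeqS (PD ((m : ℕ) : Ei)) z Q) (i : ℕ) :
    ∃ e : ℤ, 4 * ((NQ Q i : ℕ) : ℤ) ^ 3 - (TQ Q i) ^ 2 = 27 * e ^ 2 := by
  obtain ⟨c, hc⟩ := dS_three hQ i
  have h1 : dS Q i = 1 + 3 * c := by linear_combination hc
  have e2 : (1 : Ei).im = 0 := rfl
  have e3 : (3 : Ei).re = 3 := rfl
  have e4 : (3 : Ei).im = 0 := rfl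
  have him : (dS Q i).im = 3 * c.im := by
    rw [h1, QuadraticAlgebra.im_add, QuadraticAlgebra.im_mul, e2, e3, e4]
    ring
  have h2 : nr (dS Q i) = ((NQ Q i : ℕ) : ℤ) ^ 3 := by
    have h3 := dS_norm Q i
    rw [mul_star] at h3
    have h4 : (((nr (dS Q i) : ℤ)) : Ei) = ((((NQ Q i : ℕ) : ℤ) ^ 3 : ℤ) : Ei) := by
      rw [h3]
      push_cast
      rfl
    have h5 := congrArg QuadraticAlgebra.re h4
    rwa [QuadraticAlgebra.re_intCast, QuadraticAlgebra.re_intCast] at h5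
  refine ⟨c.im, ?_⟩
  rw [← h2]
  unfold nr TQ
  rw [him]
  ring

end rad

end Pool.Agent.V5helper41.SB
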