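import Pool.Agent.V5helper41.SB.Ml
import Pool.Agent.V5helper41.SB.Sy
import Pool.Agent.V5helper41.SB.Mc

/-!
# The fields, the ranks and the data of the curves
-/

set_option autoImplicit false
set_option linter.unusedSectionVars false

open NumberField IsDedekindDomain Filter Complex WeierstrassCurve
open scoped Topology Classical

namespace Pool.Agent.V5helper41.SB

open Pool.Agent.Y692.QS hiding chi
open Pool.Agent.Y715.T.RecG (Pq)
open Pool.Agent.Y703.CT (IsHL Dt pD Ker)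
open Pool.Agent.R432.C
open Pool.Agent.R432.V
open Pool.Agent.R433.MD (lf)
open Pool.Agent.H341R2.EC (IsMinAt)
open Pool.Agent.Y699.E (PD mem_PD)
open Pool.Agent.V5helper41.ST
open Pool.Agent.TH841.NF (Sc)

/-! ### the independence and the degree -/

section deg

variable {m : ℕ} {z : Ei} {Q : ℕ → Finset Ei}

theorem ind_S {M : Finset Ei} (hM : ∀ p ∈ M, Pq p) (hMs : ∀ p ∈ M, star p ∈ M)
    (hQ : SeqS M z Q) {k : ℕ} (a : Fin k → ZMod 3) (ha : a ≠ 0) :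
    ∃ (S : Finset Ei) (u : Ei → ZMod 3) (c : Ei),
      (∀ x ∈ S, Pq x) ∧ (∃ x ∈ S, u x ≠ 0) ∧ c ≠ 0 ∧
        ∏ i : Fin k, dS Q i ^ (a i).val = pw S u * c ^ 3 := by
  obtain ⟨i, hi⟩ : ∃ i, a i ≠ 0 := by
    by_contra h
    push Not at h
    exact ha (funext h)
  obtain ⟨x, hx⟩ := (hQ i).ne
  refine ⟨PP M (fun i => sym (Q i)) k, uS M Q (fun _ => 0) a, ∏ i : Fin k, cQ Q i (a i),
    SeqS.pq hM hQ k, ⟨x, mem_PP.2 (Or.inr ⟨i, i.2, mem_sym.2 (Or.inl hx)⟩), ?_⟩,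
    Finset.prod_ne_zero_iff.2 fun i _ => cQ_ne hQ i _, ?_⟩
  · rw [uS_Q hMs hQ a hx]
    exact hi
  · rw [pw_S hMs hQ]
    have h3 : pw M (fun _ => (0 : ZMod 3)) = 1 := by
      unfold pw
      exact Finset.prod_eq_one fun x _ => by rw [ZMod.val_zero, pow_zero]
    rw [h3, one_mul, ← Finset.prod_pow, ← Finset.prod_mul_distrib]
    exact Finset.prod_congr rfl fun i _ => dS_pow Q i (a i)

variable {K : Type} [Field K] [NumberField K] (j : Ei ≃+* 𝓞 K)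

theorem ind_K {M : Finset Ei} (hM : ∀ p ∈ M, Pq p) (hMs : ∀ p ∈ M, star p ∈ M)
    (hQ : SeqS M z Q) {k : ℕ} (a : Fin k → ZMod 3) (ha : ∃ i, a i ≠ 0) :
    ¬ ∃ z : K, z ^ 3 = ∏ i : Fin k, ((j (dS Q i) : 𝓞 K) : K) ^ (a i).val := by
  obtain ⟨S, u, c, hS, ⟨x, hx, hux⟩, hc, he⟩ := ind_S hM hMs hQ a (fun h => by
    obtain ⟨i, hi⟩ := ha
    exact hi (congrFun h i))
  have h1 := indK (K := K) j hS (fun y => u y.1) ⟨⟨x, hx⟩, hux⟩
  rintro ⟨z, hz⟩
  apply h1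
  have hc' := jne j hc
  refine ⟨z * ((j c : 𝓞 K) : K)⁻¹, ?_⟩
  have h4 := congrArg (fun y : Ei => ((j y : 𝓞 K) : K)) he
  unfold pw at h4
  rw [map_prod, map_mul, map_prod, map_pow] at h4
  push_cast at h4
  rw [Finset.prod_coe_sort S (fun y => ((j y : 𝓞 K) : K) ^ (u y).val)]
  have h5 : ∏ i : Fin k, ((j (dS Q i) : 𝓞 K) : K) ^ (a i).val =
      ∏ i : Fin k, ((j (dS Q i ^ (a i).val) : 𝓞 K) : K) :=
    Finset.prod_congr rfl fun i _ => by rw [map_pow]; push_cast; rfl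
  have h6 : ∏ y ∈ S, ((j (y ^ (u y).val) : 𝓞 K) : K) = ∏ y ∈ S, ((j y : 𝓞 K) : K) ^ (u y).val :=
    Finset.prod_congr rfl fun i _ => by rw [map_pow]; push_cast; rfl
  rw [mul_pow, hz, h5, h4, h6, inv_pow, mul_assoc, mul_inv_cancel₀ (pow_ne_zero 3 hc'), mul_one]

theorem deg_S {M : Finset Ei} (hM : ∀ p ∈ M, Pq p) (hMs : ∀ p ∈ M, star p ∈ M)
    (hQ : SeqS M z Q) {k : ℕ} {F : Type} [Field F] [NumberField F]
    [Algebra K F] (x : Fin k → F) (hx : ∀ i, x i ^ 3 = algebraMap K F ((j (dS Q i) : 𝓞 K) : K))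
    (hgen : ∀ L : Subfield F, (∀ y : K, algebraMap K F y ∈ L) → (∀ i, x i ∈ L) → L = ⊤) :
    Module.finrank K F = 3 ^ k := by
  have hω := om_K j
  obtain ⟨hfd, hgal⟩ := gal3 (F := F) hω (fun i : Fin k => ((j (dS Q i) : 𝓞 K) : K)) x hx hgen
  have h1 := kummer3_card (K := F) hω three_ne_zero x
    (fun i : Fin k => ((j (dS Q i) : 𝓞 K) : K)) (fun i => jne j (dS_ne hQ i)) hx
    (ind_K j hM hMs hQ) (fun σ hσ => by
      have h5 := hgen (RingHom.eqLocusField (σ : F →+* F) (RingHom.id F))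
        (fun y => σ.commutes y) hσ
      ext y
      have h7 : y ∈ RingHom.eqLocusField (σ : F →+* F) (RingHom.id F) := by rw [h5]; trivial
      exact h7)
  rw [Fintype.card_fin] at h1
  rw [← h1]
  exact (IsGalois.card_aut_eq_finrank K F).symm

end deg

/-! ### the context -/

lemma prim_of {F : Type} [Field F] [CharZero F] {ω : F} (hω : ω ^ 2 + ω + 1 = 0) :
    IsPrimitiveRoot ω 3 := by
  have h3 : ω ^ 3 = 1 := by linear_combination (ω - 1) * hω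
  have h1 : ω ≠ 1 := by
    rintro rfl
    norm_num at hω
  have hp : Fact (Nat.Prime 3) := ⟨Nat.prime_three⟩
  have h := orderOf_eq_prime h3 h1
  have h5 := IsPrimitiveRoot.orderOf ω
  rwa [h] at h5

lemma hom_ext' {R : Type} [CommRing R] {f g : Ei →+* R} (h : f w = g w) : f = g := by
  ext a
  have ha : a = ((a.re : ℤ) : Ei) + ((a.im : ℤ) : Ei) * w := by
    ext
    · simp [w]
    · simp [w]
  rw [ha, map_add, map_add, map_mul, map_mul, map_intCast, map_intCast, map_intCast, map_intCast, h]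

lemma hom_inj' {F : Type} [Field F] [CharZero F] (f : Ei →+* F) : Function.Injective f := by
  rw [injective_iff_map_eq_zero]
  intro a ha
  have h1 : f (a * star a) = 0 := by rw [map_mul, ha, zero_mul]
  rw [mul_star, map_intCast] at h1
  exact nr_zero_iff.1 (by exact_mod_cast h1)

/-- **The context.** -/
theorem mkCA {m : ℕ} (hm : m ≠ 0) {z : Ei} {Q : ℕ → Finset Ei}
    (hQ : SeqS (PD ((m : ℕ) : Ei)) z Q) {k : ℕ} {F : Type} [Field F] [NumberField F] {ω : F}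
    (hω : ω ^ 2 + ω + 1 = 0) (θ : Fin k → F)
    (hθ : ∀ i, θ i ^ 3 = 3 * ((NQ Q i : ℕ) : F) * θ i + ((TQ Q i : ℤ) : F))
    (hgen : ∀ M : Subfield F, ω ∈ M → (∀ i, θ i ∈ M) → M = ⊤) :
    ∃ (φ : Ei →+* 𝓞 F) (x : Fin k → 𝓞 F), zF φ = ω ∧
      CA φ (fun i : Fin k => dS Q i) (fun i => NQ Q i) x ∧
      ∀ D : ℕ, D ≠ 0 → Tow ((D : ℕ) : Ei) (fun i : Fin k => dS Q i) →
        Module.rank ℤ (ED ((D : ℕ) : F)).toAffine.Point =
          2 * Module.rank ℤ (ED ((D : ℕ) : ℚ)).toAffine.Point ∧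
        ∃ n : ℕ, n ≠ 0 ∧ ∀ (P : (ED ((D : ℕ) : F)).toAffine.Point) (σ : F ≃ₐ[ℚ] F), σ ω = ω →
          ∀ S : Sc (σ : F →+* F) 1 (ED ((D : ℕ) : F)) (ED ((D : ℕ) : F)),
            tH S (n • P) = n • P := by
  have hM := PD_pq hm
  have hMs := PD_star hm
  have hωi : IsIntegral ℤ ω := by
    refine IsIntegral.of_pow (n := 3) (by norm_num) ?_
    have h3 : ω ^ 3 = 1 := by linear_combination (ω - 1) * hω
    rw [h3]
    exact isIntegral_one
  have hωO : (⟨ω, hωi⟩ : 𝓞 F) * ⟨ω, hωi⟩ = -1 - ⟨ω, hωi⟩ := by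
    apply RingOfIntegers.ext
    push_cast
    show ω * ω = -1 - ω
    linear_combination hω
  set φ : Ei →+* 𝓞 F := hom ⟨ω, hωi⟩ hωO with hφ
  have hφw : φ w = ⟨ω, hωi⟩ := hom_w _ _
  have hz : zF φ = ω := by
    unfold zF
    rw [hφw]
    rfl
  set ψ : Ei →+* F := (algebraMap (𝓞 F) F).comp φ with hψ
  have hψw : ψ w = ω := hz
  have hψi : Function.Injective ψ := hom_inj' ψ
  have e2 : ∀ i : Fin k, ψ (dS Q i) + ψ (star (dS Q i)) = ((TQ Q i : ℤ) : F) := by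
    intro i
    rw [← map_add, dS_trace, map_intCast]
  have e3 : ∀ i : Fin k, ψ (dS Q i) * ψ (star (dS Q i)) = ((NQ Q i : ℕ) : F) ^ 3 := by
    intro i
    rw [← map_mul, dS_norm, map_pow, map_natCast]
  have e4 : ∀ i : Fin k, ψ (dS Q i) ≠ ψ (star (dS Q i)) := fun i h =>
    dS_star_ne hQ i (hψi h)
  set x : Fin k → F := fun i => (θ i + (ψ (dS Q i) - ψ (star (dS Q i))) /
    (θ i ^ 2 - ((NQ Q i : ℕ) : F))) / 2 with hx
  have hx3 : ∀ i, x i ^ 3 = ψ (dS Q i) := fun i => (th_cube (hθ i) (e2 i) (e3 i) (e4 i)).1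
  have hxN : ∀ i, x i * (θ i - x i) = ((NQ Q i : ℕ) : F) := fun i =>
    (th_cube (hθ i) (e2 i) (e3 i) (e4 i)).2
  have hx0 : ∀ i, x i ≠ 0 := by
    intro i h
    have h1 := hx3 i
    rw [h, zero_pow (by norm_num)] at h1
    exact dS_ne hQ i (hψi (by rw [← h1, map_zero]))
  have hint : ∀ i, IsIntegral ℤ (x i) := by
    intro i
    refine IsIntegral.of_pow (n := 3) (by norm_num) ?_
    rw [hx3 i]
    exact (φ (dS Q i)).2
  have hgenx : ∀ M : Subfield F, ω ∈ M → (∀ i, x i ∈ M) → M = ⊤ := by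
    intro M h1 h2
    refine hgen M h1 fun i => ?_
    have h4 : θ i = x i + ((NQ Q i : ℕ) : F) * (x i)⁻¹ := by
      have h5 := hxN i
      rw [← h5]
      field_simp [hx0 i]
      ring
    rw [h4]
    exact M.add_mem (h2 i) (M.mul_mem (natCast_mem M _) (M.inv_mem (h2 i)))
  -- the field `K`
  have hcyc : IsCyclotomicExtension {3} ℚ (CyclotomicField 3 ℚ) :=
    Pool.Agent.Y948.CTP.cyc_rat _ _ (CyclotomicField.isCyclotomicExtension 3 ℚ)
  obtain ⟨⟨j, -⟩, -⟩ := Pool.Agent.Y455.CTK.jex (CyclotomicField 3 ℚ)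
  have hirrQ : Irreducible (Polynomial.cyclotomic 3 ℚ) :=
    Polynomial.cyclotomic.irreducible_rat (by norm_num)
  have hζ : IsPrimitiveRoot ((j w : 𝓞 (CyclotomicField 3 ℚ)) : CyclotomicField 3 ℚ) 3 :=
    prim_of (om_K j)
  let χ : CyclotomicField 3 ℚ →ₐ[ℚ] F := (hζ.embeddingsEquivPrimitiveRoots F hirrQ).symm
    ⟨_, (mem_primitiveRoots (by norm_num)).2 (prim_of hω)⟩
  have hχ : χ ((j w : 𝓞 (CyclotomicField 3 ℚ)) : CyclotomicField 3 ℚ) = ω := by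
    have h1 := hζ.embeddingsEquivPrimitiveRoots_apply_coe F hirrQ χ
    rw [← h1, Equiv.apply_symm_apply]
  let hAl : Algebra (CyclotomicField 3 ℚ) F := χ.toRingHom.toAlgebra
  have hψj : ∀ a : Ei, algebraMap (CyclotomicField 3 ℚ) F
      ((j a : 𝓞 (CyclotomicField 3 ℚ)) : CyclotomicField 3 ℚ) = ψ a := by
    intro a
    have h1 : ((algebraMap (CyclotomicField 3 ℚ) F).comp
        ((algebraMap (𝓞 (CyclotomicField 3 ℚ)) (CyclotomicField 3 ℚ)).comp
          (j : Ei →+* 𝓞 (CyclotomicField 3 ℚ)))) = ψ := hom_ext' (by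
      rw [hψw]
      exact hχ)
    rw [← h1]
    rfl
  have hx3' : ∀ i, x i ^ 3 = algebraMap (CyclotomicField 3 ℚ) F
      ((j (dS Q i) : 𝓞 (CyclotomicField 3 ℚ)) : CyclotomicField 3 ℚ) := fun i => by
    rw [hψj, hx3]
  have hgenK : ∀ M : Subfield F,
      (∀ y : CyclotomicField 3 ℚ, algebraMap (CyclotomicField 3 ℚ) F y ∈ M) →
      (∀ i, x i ∈ M) → M = ⊤ := by
    intro M h1 h2
    refine hgenx M ?_ h2
    rw [← hχ]
    exact h1 _
  have g1 := deg_S j hM hMs hQ x hx3' hgenK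
  have ht : IsScalarTower ℚ (CyclotomicField 3 ℚ) F :=
    IsScalarTower.of_algebraMap_eq fun q => (χ.commutes q).symm
  have f1 : Module.finrank ℚ (CyclotomicField 3 ℚ) * Module.finrank (CyclotomicField 3 ℚ) F =
      Module.finrank ℚ F := Module.finrank_mul_finrank ℚ _ F
  have f3 : Module.finrank ℚ (CyclotomicField 3 ℚ) = 2 := by
    rw [IsCyclotomicExtension.finrank (CyclotomicField 3 ℚ) hirrQ]
    decide
  refine ⟨φ, fun i => ⟨x i, hint i⟩, hz, ⟨fun i => ?_, fun i => dS_norm Q i, fun i => NQ_ne hQ i,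
    fun M h1 h2 => ?_, ?_⟩, fun D hD hT => ?_⟩
  · apply RingOfIntegers.ext
    exact hx3 i
  · refine hgenx M ?_ h2
    rw [← hz]
    exact h1
  · rw [← f1, f3, g1]
  · have h1 := rankG j hT x hx3' hgenK
    have h2 := rank_KQ (K := CyclotomicField 3 ℚ) (D := ((D : ℕ) : ℚ)) (Nat.cast_ne_zero.2 hD)
    have e1 : ((j ((D : ℕ) : Ei) : 𝓞 (CyclotomicField 3 ℚ)) : CyclotomicField 3 ℚ) =
        ((D : ℕ) : CyclotomicField 3 ℚ) := by
      rw [map_natCast]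
      push_cast
      rfl
    have h1' := h1
    rw [e1, map_natCast] at h1'
    rw [map_natCast] at h2
    refine ⟨by rw [h1', h2], ?_⟩
    -- the multiples of the points
    obtain ⟨hfd, hgal⟩ := gal3 (F := F) (om_K j)
      (fun i : Fin k => ((j (dS Q i) : 𝓞 (CyclotomicField 3 ℚ)) : CyclotomicField 3 ℚ)) x hx3' hgenK
    obtain ⟨n, hn, hst⟩ := stab (om_K j)
      (fun i : Fin k => ((j (dS Q i) : 𝓞 (CyclotomicField 3 ℚ)) : CyclotomicField 3 ℚ)) x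
      (fun i => jne j (hT.d0 i)) hx3' hgenK (jne j hT.D0) fun t ht => by
        rw [← j_prod]
        exact finG j hT ht
    have hDF : ((D : ℕ) : F) = algebraMap (CyclotomicField 3 ℚ) F
        ((j ((D : ℕ) : Ei) : 𝓞 (CyclotomicField 3 ℚ)) : CyclotomicField 3 ℚ) := by
      rw [e1, map_natCast]
    refine ⟨n, hn, fun P σ hσ S => stab_fix hDF hst P (σ : F →+* F) (fun y => ?_) S⟩
    obtain ⟨a, b, -, rfl⟩ := IsFractionRing.div_surjective (A := 𝓞 (CyclotomicField 3 ℚ)) y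
    obtain ⟨a', rfl⟩ := j.surjective a
    obtain ⟨b', rfl⟩ := j.surjective b
    have hfix : ∀ c : Ei, (σ : F →+* F) (ψ c) = ψ c := by
      intro c
      have h5 : ((σ : F →+* F).comp ψ) = ψ := hom_ext' (by
        show σ (ψ w) = ψ w
        rw [hψw, hσ])
      exact DFunLike.congr_fun h5 c
    have e5 : ∀ c : Ei, algebraMap (CyclotomicField 3 ℚ) F
        (algebraMap (𝓞 (CyclotomicField 3 ℚ)) (CyclotomicField 3 ℚ) (j c)) = ψ c := fun c => hψj c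
    rw [map_div₀, map_div₀, e5, e5, hfix, hfix]

/-- the fields exist -/
theorem exists_F (N : ℕ → ℕ) (T : ℕ → ℤ) (k : ℕ) :
    ∃ (F : Type) (_ : Field F) (_ : NumberField F) (ω : F) (θ : ℕ → F), ω ^ 2 + ω + 1 = 0 ∧
      (∀ i, i < k → θ i ^ 3 = 3 * (N i : F) * θ i + (T i : F)) ∧
      ∀ M : Subfield F, ω ∈ M → (∀ i, i < k → θ i ∈ M) → M = ⊤ := by
  obtain ⟨L, i1, i2, θ, hθ, hgen⟩ := exists_fieldQ N T k
  obtain ⟨F, hF1, hF2, hF3, hF4⟩ : ∃ (F : Type) (_ : Field F) (_ : NumberField F) (_ : Algebra L F),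
      IsCyclotomicExtension {3} L F :=
    ⟨CyclotomicField 3 L, inferInstance, inferInstance, inferInstance, inferInstance⟩
  have hζF : IsPrimitiveRoot (IsCyclotomicExtension.zeta 3 L F) 3 :=
    IsCyclotomicExtension.zeta_spec 3 L F
  have hgenL : ∀ M : Subfield F, (∀ y : L, algebraMap L F y ∈ M) →
      IsCyclotomicExtension.zeta 3 L F ∈ M → M = ⊤ := by
    intro M h4 h5
    have h6 : (Algebra.adjoin L {IsCyclotomicExtension.zeta 3 L F} : Subalgebra L F) = ⊤ :=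
      IsCyclotomicExtension.adjoin_primitive_root_eq_top hζF
    rw [eq_top_iff]
    intro y _
    have h7 : y ∈ (Algebra.adjoin L {IsCyclotomicExtension.zeta 3 L F} : Subalgebra L F) := by
      rw [h6]; trivial
    refine Algebra.adjoin_induction (p := fun z _ => z ∈ M) ?_ ?_ ?_ ?_ h7
    · rintro z hz
      rw [Set.mem_singleton_iff.1 hz]
      exact h5
    · exact h4
    · intro x y _ _ hx hy
      exact M.add_mem hx hy
    · intro x y _ _ hx hy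
      exact M.mul_mem hx hy
  refine ⟨F, hF1, hF2, IsCyclotomicExtension.zeta 3 L F, fun i => algebraMap L F (θ i), ?_,
    fun i hi => ?_, fun M h1 h2 => ?_⟩
  · have h3 := hζF.pow_eq_one
    have h1 := hζF.ne_one (by norm_num)
    have h4 : (IsCyclotomicExtension.zeta 3 L F - 1) * (IsCyclotomicExtension.zeta 3 L F ^ 2 +
        IsCyclotomicExtension.zeta 3 L F + 1) = 0 := by linear_combination h3
    exact (mul_eq_zero.1 h4).resolve_left (sub_ne_zero.2 h1)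
  · rw [← map_pow, hθ i hi, map_add, map_mul, map_mul, map_ofNat, map_natCast, map_intCast]
  · refine hgenL M (fun y => ?_) h1
    have h3 := hgen (M.comap (algebraMap L F)) fun i hi => h2 i hi
    have h5 : y ∈ M.comap (algebraMap L F) := by rw [h3]; trivial
    exact h5

/-! ### the data of the curves -/

theorem dataD {m p₀ : ℕ} (hm : m ≠ 0) {z : Ei} (hz : Pq z) (hz0 : z ∣ ((p₀ : ℕ) : Ei))
    (hzm : z ∈ PD ((m : ℕ) : Ei)) {Q : ℕ → Finset Ei} (hQ : SeqS (PD ((m : ℕ) : Ei)) z Q)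
    {D : ℕ} (hD : Cn m p₀ D) :
    (∀ k, Tow ((D : ℕ) : Ei) (fun i : Fin k => dS Q i)) ∧
    ∃ n : ℕ, (∃ Λ : ℂ → ℂ, MeromorphicOn Λ Set.univ ∧ AnalyticAt ℂ Λ 1 ∧
      (∀ V : HeightOneSpectrum (𝓞 ℚ) → WeierstrassCurve (𝓞 ℚ),
        (∀ v, IsMinAt (ED ((D : ℕ) : ℚ)) v (V v)) → ∀ s : ℂ, 3 / 2 < s.re →
          HasProd (fun v => (lf V s v)⁻¹) (Λ s)) ∧ analyticOrderAt Λ 1 = n) ∧
      ∀ (k B : ℕ), B ≠ 0 → (∀ p : ℕ, p.Prime → p ∣ D → p ∣ B) → (∀ i : Fin k, NQ Q i ∣ B) →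
        ∃ G : (Fin k → ZMod 3) → ℂ → ℂ,
          (∀ t, HL (tw ((D : ℕ) : Ei) (fun i : Fin k => dS Q i) t) ((B : ℕ) : Ei) (G t)) ∧
          (∀ t, t ≠ 0 → G t 1 ≠ 0) ∧ analyticOrderAt (G 0) 1 = n := by
  have hM := PD_pq hm
  have hMs := PD_star hm
  obtain ⟨u, hu, h9, hw, hw'⟩ := weights hm hz hz0 hD
  have hT : ∀ k, Tow ((D : ℕ) : Ei) (fun i : Fin k => dS Q i) := fun k =>
    tow_S hM hMs hzm hQ hw hw' h9 hu k
  have hD0 := hD.ne
  have hne := act_ne h9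
  obtain ⟨F0, hF0, -⟩ := Pool.Agent.Y715.CT.AN1b.an1b _ _ _ (net_dt hM u).neg
  have hcyc : IsCyclotomicExtension {3} ℚ (CyclotomicField 3 ℚ) :=
    Pool.Agent.Y948.CTP.cyc_rat _ _ (CyclotomicField.isCyclotomicExtension 3 ℚ)
  obtain ⟨⟨j, -⟩, -⟩ := Pool.Agent.Y455.CTK.jex (CyclotomicField 3 ℚ)
  have hup : ((D : ℕ) : Ei) = pD (fun x : Act (PD ((m : ℕ) : Ei)) u => x.1) (fun x => u x.1) ∨
      ((D : ℕ) : Ei) = -pD (fun x : Act (PD ((m : ℕ) : Ei)) u => x.1) (fun x => u x.1) := by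
    rw [net_pD]
    exact hu
  obtain ⟨Λ, b1, b2, b3, b4, b5⟩ := ordQ j (net_dt hM u) hD0 hup hF0
  obtain ⟨n, hn⟩ := ENat.ne_top_iff_exists.1 b5
  refine ⟨hT, n, ⟨Λ, b1, b2, b3, hn.symm⟩, fun k B hB hDB hNB => ?_⟩
  have hB0' := ne_ei hB
  have hDB' : ∀ α : Ei, Pq α → α ∣ ((D : ℕ) : Ei) → α ∣ ((B : ℕ) : Ei) := by
    intro α hα h
    obtain ⟨p, hp, hpD, hαp⟩ := prime_dvd_nat hα.prime hD0 h
    obtain ⟨c, hc⟩ := hDB p hp hpD
    refine hαp.trans ⟨(c : Ei), ?_⟩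
    rw [hc]
    push_cast
    rfl
  have hBD0 : ((B : ℕ) : Ei) * ((D : ℕ) : Ei) ≠ 0 := mul_ne_zero hB0' (ne_ei hD0)
  have hdB : ∀ (i : Fin k) (α : Ei), Pq α → α ∣ dS Q i → α ∣ ((B : ℕ) : Ei) := by
    intro i α hα h
    have h1 : α ∣ ((NQ Q i : ℕ) : Ei) ^ 3 := by
      rw [← dS_norm]
      exact h.mul_right _
    refine (hα.prime.dvd_of_dvd_pow h1).trans ?_
    obtain ⟨c, hc⟩ := hNB i
    refine ⟨(c : Ei), ?_⟩
    rw [hc]
    push_cast
    rfl
  have hL : ∀ t : Fin k → ZMod 3, ∃ G : ℂ → ℂ,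
      HL (tw ((D : ℕ) : Ei) (fun i : Fin k => dS Q i) t) ((B : ℕ) : Ei) G ∧
      (t ≠ 0 → G 1 ≠ 0) ∧ (t = 0 → analyticOrderAt G 1 = analyticOrderAt F0 1) := by
    intro t
    by_cases ht : t = 0
    · subst ht
      obtain ⟨b, hb1, hb2, hb3⟩ := hl_of (net_dt hM u) (D := ((D : ℕ) : Ei)) hup hF0 hBD0
        (dvd_mul_left _ _)
      have hb4 := hl_cube (c := 1) hb3 (B := ((B : ℕ) : Ei)) (fun α hα =>
        ⟨fun h => h.mul_right _, fun h => (hα.prime.dvd_or_dvd h).elim id (hDB' α hα)⟩)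
        (fun α hα h => by
          rw [one_pow, mul_one] at h
          exact hDB' α hα h)
      rw [one_pow, mul_one] at hb4
      refine ⟨fun s => F0 s * b s, by rw [tw_zero]; exact hb4, fun h => absurd rfl h,
        fun _ => ?_⟩
      have e := analyticOrderAt_mul (hF0.1.analyticAt 1) (hb1.analyticAt 1)
      have h0 : analyticOrderAt b 1 = 0 := by
        rw [(hb1.analyticAt 1).analyticOrderAt_eq_zero]
        exact hb2
      rw [h0, add_zero] at e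
      exact e
    · obtain ⟨G, h1, h2⟩ := hlG (hT k) ht hB0' (fun α hα h => by
        unfold tw at h
        rcases hα.prime.dvd_or_dvd h with h | h
        · exact hDB' α hα h
        · obtain ⟨i, -, hi⟩ := (hα.prime.dvd_finsetProd_iff _).1 h
          exact hdB i α hα (hα.prime.dvd_of_dvd_pow hi))
      exact ⟨G, h1, fun _ => h2, fun h => absurd h ht⟩
  choose G hG1 hG2 hG3 using hL
  exact ⟨G, hG1, hG2, by rw [hG3 0 rfl, ← b4, ← hn]⟩

end Pool.Agent.V5helper41.SB
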