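import Pool.Agent.V5helper41.SB.Ga
import Pool.Agent.V5helper41.BA.Ana

/-!
# The local factors
-/

set_option autoImplicit false
set_option linter.unusedSectionVars false
set_option linter.unusedVariables false

open NumberField IsDedekindDomain

namespace Pool.Agent.V5helper41.SB

open scoped Classical
open Pool.Agent.N842.EB (Us dt dt_neg_left det_eq zetaC zp_add prime_uniq)
open Pool.Agent.Y692.QS (Ei w nr toC star_w mul_star nr_star nr_neg nr_nat)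
open Pool.Agent.Y715.T.Rec (cs nn)
open Pool.Agent.Y715.T.RecG (Pq cs_spec)
open Pool.Agent.Y696.CT (pq_star cs_star_int cs_inert inert int_ndvd im_star_ne cpow_two tw_add
  ap_cube cube_two cs_mul')
open Pool.Agent.R432.C (pq_dvd)
open Pool.Agent.R432.V
open Pool.Agent.Y703.CX (pp)
open Pool.Agent.Y333.CX (pp_spec)
open Pool.Agent.Y703.CT (WD)
open Pool.Agent.W97.MT (ap)
open Pool.Agent.V5helper41.ST (hk tw)

/-! ### the symbols -/

section sym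

variable {k : ℕ} {d : Fin k → Ei} {N : Fin k → ℕ}

lemma nd_of (hn : ∀ i, d i * star (d i) = ((N i : ℕ) : Ei) ^ 3) {α : Ei} (hα : Pq α) {i : Fin k}
    (h : ¬ α ∣ ((N i : ℕ) : Ei)) : ¬ α ∣ d i ∧ ¬ α ∣ star (d i) := by
  constructor
  · intro h1
    have h2 : α ∣ ((N i : ℕ) : Ei) ^ 3 := by
      rw [← hn i]
      exact h1.mul_right _
    exact h (hα.prime.dvd_of_dvd_pow h2)
  · intro h1
    have h2 : α ∣ ((N i : ℕ) : Ei) ^ 3 := by
      rw [← hn i]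
      exact h1.mul_left _
    exact h (hα.prime.dvd_of_dvd_pow h2)

lemma csd (hn : ∀ i, d i * star (d i) = ((N i : ℕ) : Ei) ^ 3) {α : Ei} (hα : Pq α) {i : Fin k}
    (h : ¬ α ∣ ((N i : ℕ) : Ei)) : cs (star α) (d i) = cs α (d i) := by
  obtain ⟨h1, h3⟩ := nd_of hn hα h
  have h5 := Pool.Agent.Y350.CT.cs_star hα h3
  rw [star_star] at h5
  have h6 := cs_mul' hα h1 h3
  have h7 : cs α (((N i : ℕ) : Ei) ^ 3) = 0 := by
    have h8 := Pool.Agent.V5helper41.ST.cs_cube hα hα.prime.not_dvd_one h (a := 1)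
    rw [one_mul] at h8
    rw [h8]
    have h9 := cs_mul' hα hα.prime.not_dvd_one hα.prime.not_dvd_one
    rw [one_mul] at h9
    exact add_eq_left.1 h9.symm
  rw [hn i, h7] at h6
  rw [h5]
  exact (eq_neg_of_add_eq_zero_left h6.symm).symm

end sym

variable {F : Type} [Field F] [NumberField F] {φ : Ei →+* 𝓞 F} {k : ℕ} {d : Fin k → Ei}
  {N : Fin k → ℕ} {x : Fin k → 𝓞 F} {b : ℕ}

/-- the representation of `(ℤ/3)^k` -/
noncomputable def rV (C : CA φ d N x) (ρ : (F ≃ₐ[ℚ] F) →* Matrix (Fin b) (Fin b) ℂ)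
    (c : Fin k → ZMod 3) : (Fin b → ℂ) →ₗ[ℂ] (Fin b → ℂ) := Matrix.toLin' (ρ (C.s c))

lemma rV_zero (C : CA φ d N x) (ρ : (F ≃ₐ[ℚ] F) →* Matrix (Fin b) (Fin b) ℂ) :
    rV C ρ 0 = LinearMap.id := by
  unfold rV
  rw [C.s_zero, map_one, Matrix.toLin'_one]

lemma rV_add (C : CA φ d N x) (ρ : (F ≃ₐ[ℚ] F) →* Matrix (Fin b) (Fin b) ℂ)
    (c c' : Fin k → ZMod 3) : rV C ρ (c + c') = rV C ρ c ∘ₗ rV C ρ c' := by
  unfold rV
  rw [C.s_add, map_mul, Matrix.toLin'_mul]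

/-- the multiplicity -/
noncomputable def mt (C : CA φ d N x) (ρ : (F ≃ₐ[ℚ] F) →* Matrix (Fin b) (Fin b) ℂ)
    (t : Fin k → ZMod 3) : ℕ := Module.finrank ℂ (Us (toC w) (rV C ρ) t)

theorem det_mat (C : CA φ d N x) (ρ : (F ≃ₐ[ℚ] F) →* Matrix (Fin b) (Fin b) ℂ)
    (A : Matrix (Fin b) (Fin b) ℂ) (lam : (Fin k → ZMod 3) → ℂ)
    (hT : ∀ t, ∀ u ∈ Us (toC w) (rV C ρ) t, Matrix.toLin' A u = lam t • u) :
    A.det = ∏ t, lam t ^ mt C ρ t := by
  rw [← LinearMap.det_toLin' A]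
  exact det_eq zetaC (rV C ρ) (rV_zero C ρ) (rV_add C ρ) _ _ hT

lemma inv_eq (C : CA φ d N x) {g : F ≃ₐ[ℚ] F} (hg : g (zF φ) = zF φ) : g⁻¹ = C.s (-C.kv g) := by
  have h1 : C.s (-C.kv g) * g = 1 := by
    conv_lhs => rw [C.eq_s hg]
    rw [← C.s_add, C.kv_s, neg_add_cancel, C.s_zero]
  exact (eq_inv_of_mul_eq_one_left h1).symm

lemma act_inv (C : CA φ d N x) (ρ : (F ≃ₐ[ℚ] F) →* Matrix (Fin b) (Fin b) ℂ) {g : F ≃ₐ[ℚ] F}
    (hg : g (zF φ) = zF φ) {t : Fin k → ZMod 3} {u : Fin b → ℂ}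
    (hu : u ∈ Us (toC w) (rV C ρ) t) :
    Matrix.toLin' (ρ g⁻¹) u = toC w ^ (-dt (C.kv g) t).val • u := by
  have h1 := hu (-C.kv g)
  unfold rV at h1
  rw [← inv_eq C hg, dt_neg_left] at h1
  exact h1

/-- the factor of the determinant, split case -/
theorem det_one (C : CA φ d N x) (ρ : (F ≃ₐ[ℚ] F) →* Matrix (Fin b) (Fin b) ℂ) {g : F ≃ₐ[ℚ] F}
    (hg : g (zF φ) = zF φ) (β β' X : ℂ) :
    (1 - ((β + β') * X) • ρ g⁻¹ + (β * β' * X ^ 2) • (ρ g⁻¹ * ρ g⁻¹)).det =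
      ∏ t, ((1 - β * toC w ^ (-dt (C.kv g) t).val * X) *
        (1 - β' * toC w ^ (-dt (C.kv g) t).val * X)) ^ mt C ρ t := by
  refine det_mat C ρ _ _ fun t u hu => ?_
  have h1 := act_inv C ρ hg hu
  rw [map_add, map_sub, map_smul, map_smul, Matrix.toLin'_one, Matrix.toLin'_mul,
    LinearMap.add_apply, LinearMap.sub_apply, LinearMap.smul_apply, LinearMap.smul_apply,
    LinearMap.comp_apply, LinearMap.id_apply, h1, map_smul, h1]
  module

/-- the factor of the determinant, inert case -/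
theorem det_two (C : CA φ d N x) (ρ : (F ≃ₐ[ℚ] F) →* Matrix (Fin b) (Fin b) ℂ) {g : F ≃ₐ[ℚ] F}
    (hg : (g * g) (zF φ) = zF φ) (Y : ℂ) :
    (1 - (0 : ℂ) • ρ g⁻¹ + Y • (ρ g⁻¹ * ρ g⁻¹)).det =
      ∏ t, (1 + Y * toC w ^ (-dt (C.kv (g * g)) t).val) ^ mt C ρ t := by
  have e : ρ g⁻¹ * ρ g⁻¹ = ρ (g * g)⁻¹ := by rw [← map_mul, mul_inv_rev]
  rw [e]
  refine det_mat C ρ _ _ fun t u hu => ?_
  have h1 := act_inv C ρ hg hu
  rw [map_add, map_sub, map_smul, map_smul, Matrix.toLin'_one,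
    LinearMap.add_apply, LinearMap.sub_apply, LinearMap.smul_apply, LinearMap.smul_apply,
    LinearMap.id_apply, h1]
  module

/-- a primary prime in the place -/
lemma exists_al {v : HeightOneSpectrum (𝓞 F)} {p : ℕ} (hp : p.Prime)
    (hm : p % 3 = 1) (hv : (p : 𝓞 F) ∈ v.asIdeal) :
    φ (pp p) ∈ v.asIdeal ∨ φ (star (pp p)) ∈ v.asIdeal := by
  obtain ⟨h1, h2⟩ := pp_spec hp hm
  have h3 : φ (pp p) * φ (star (pp p)) = (p : 𝓞 F) := by
    rw [← map_mul, mul_star, h2, map_intCast, Int.cast_natCast]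
  rw [← h3] at hv
  exact v.isPrime.mem_or_mem hv

/-- the product of the two factors of a twist at a split prime -/
lemma fac_one (hn : ∀ i, d i * star (d i) = ((N i : ℕ) : Ei) ^ 3) {D p : ℕ} (hp : p.Prime)
    (hpD : ¬ p ∣ D) (hpN : ∀ i, ¬ p ∣ N i) {α : Ei} (hα : Pq α) (hnα : nr α = p)
    {κ : Fin k → ZMod 3} (hκ : ∀ i, κ i = cs α (d i)) (t : Fin k → ZMod 3) (s : ℂ) :
    (1 - hk (tw ((D : ℕ) : Ei) d t) s α) * (1 - hk (tw ((D : ℕ) : Ei) d t) s (star α)) =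
      (1 - (toC w ^ (-cs α ((D : ℕ) : Ei)).val * toC α) * toC w ^ (-dt κ t).val *
        (p : ℂ) ^ (-s)) *
      (1 - (toC w ^ (cs α ((D : ℕ) : Ei)).val * toC (star α)) * toC w ^ (-dt κ t).val *
        (p : ℂ) ^ (-s)) := by
  have hα' := pq_star hα
  have hnα' : nr (star α) = p := by rw [nr_star, hnα]
  have hN : ∀ i, ¬ α ∣ ((N i : ℕ) : Ei) := fun i => ndvd_nat hp hnα (hpN i)
  have hN' : ∀ i, ¬ star α ∣ ((N i : ℕ) : Ei) := fun i => ndvd_nat hp hnα' (hpN i)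
  have hD : ¬ α ∣ ((D : ℕ) : Ei) := ndvd_nat hp hnα hpD
  have hD' : ¬ star α ∣ ((D : ℕ) : Ei) := ndvd_nat hp hnα' hpD
  have h1 : cs α (tw ((D : ℕ) : Ei) d t) = cs α ((D : ℕ) : Ei) + dt κ t := by
    rw [Pool.Agent.V5helper41.ST.cs_tw t hα hD fun i => (nd_of hn hα (hN i)).1]
    congr 1
    unfold dt
    exact Finset.sum_congr rfl fun i _ => by rw [hκ]
  have h2 : cs (star α) (tw ((D : ℕ) : Ei) d t) = -cs α ((D : ℕ) : Ei) + dt κ t := by
    rw [Pool.Agent.V5helper41.ST.cs_tw t hα' hD' fun i => (nd_of hn hα' (hN' i)).1,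
      cs_star_nat hα hD]
    congr 1
    unfold dt
    exact Finset.sum_congr rfl fun i _ => by rw [hκ, csd hn hα (hN i)]
  unfold hk
  rw [h1, h2, hnα, hnα', Int.cast_natCast, map_mul, map_mul, map_pow, map_pow, neg_add, neg_add,
    neg_neg, tw_add, tw_add]
  ring

/-- the factor of a twist at an inert prime -/
lemma fac_two (hn : ∀ i, d i * star (d i) = ((N i : ℕ) : Ei) ^ 3) {D p : ℕ} (hp : p.Prime)
    (hm : p % 3 = 2) (hpD : ¬ p ∣ D) (hpN : ∀ i, ¬ p ∣ N i)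
    {κ : Fin k → ZMod 3} (hκ : ∀ i, κ i = cs (-((p : ℕ) : Ei)) (d i)) (t : Fin k → ZMod 3) (s : ℂ) :
    1 - hk (tw ((D : ℕ) : Ei) d t) s (-((p : ℕ) : Ei)) =
      1 + (p : ℂ) ^ (1 - 2 * s) * toC w ^ (-dt κ t).val := by
  have hfact := Fact.mk hp
  have hα : Pq (-((p : ℕ) : Ei)) := inert hp hm
  have hnr : nr (-((p : ℕ) : Ei)) = (p : ℤ) ^ 2 := by rw [nr_neg, nr_nat]
  have hnd : ∀ n : ℕ, ¬ p ∣ n → ¬ -((p : ℕ) : Ei) ∣ ((n : ℕ) : Ei) := by
    intro n hn h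
    rw [neg_dvd] at h
    exact hn (nat_dvd_nat h)
  have hcs : ∀ n : ℕ, ¬ p ∣ n → cs (-((p : ℕ) : Ei)) ((n : ℕ) : Ei) = 0 := by
    intro n hn
    have h5 := cs_inert hm hα (n := (n : ℤ)) (fun h => hn (by exact_mod_cast h))
    rwa [Int.cast_natCast] at h5
  have h1 : cs (-((p : ℕ) : Ei)) (tw ((D : ℕ) : Ei) d t) = dt κ t := by
    rw [Pool.Agent.V5helper41.ST.cs_tw t hα (hnd D hpD)
      fun i => (nd_of hn hα (hnd (N i) (hpN i))).1, hcs D hpD, zero_add]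
    unfold dt
    exact Finset.sum_congr rfl fun i _ => by rw [hκ]
  have h10 : ((((p : ℤ) ^ 2 : ℤ) : ℂ)) ^ (-s) = (((p : ℕ) : ℂ) ^ (-s)) ^ 2 := by
    push_cast
    exact npow p 2 (-s)
  unfold hk
  rw [h1, hnr, h10, map_mul, map_pow, map_neg, map_natCast, cpow_two hp]
  ring

/-- **The local identity.** -/
theorem mat_id (C : CA φ d N x) (ρ : (F ≃ₐ[ℚ] F) →* Matrix (Fin b) (Fin b) ℂ) {D p : ℕ}
    (hp : p.Prime) (hp3 : p ≠ 3) (hpD : ¬ p ∣ D) (hpN : ∀ i, ¬ p ∣ N i)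
    {v : HeightOneSpectrum (𝓞 F)} (hv : (p : 𝓞 F) ∈ v.asIdeal) {σ : F ≃ₐ[ℚ] F}
    (hσ : ∀ y : 𝓞 F, σ • y - y ^ p ∈ v.asIdeal) (s : ℂ) :
    (1 - ((ap (WD (D : ℤ)) p : ℂ) * (p : ℂ) ^ (-s)) • ρ σ⁻¹ +
      ((p : ℂ) ^ (1 - 2 * s)) • (ρ σ⁻¹ * ρ σ⁻¹)).det =
      ∏ t, ((Gp (hk (tw ((D : ℕ) : Ei) d t) s) p)⁻¹) ^ mt C ρ t := by
  have h3 : ((3 : ℕ) : 𝓞 F) ∉ v.asIdeal := fun h => hp3 (prime_uniq hp Nat.prime_three hv h)
  have hm : p % 3 = 1 ∨ p % 3 = 2 := by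
    have : p % 3 ≠ 0 := fun h => hp3
      ((Nat.prime_dvd_prime_iff_eq Nat.prime_three hp).1 (Nat.dvd_of_mod_eq_zero h)).symm
    omega
  have hpD' : ¬ (p : ℤ) ∣ (D : ℤ) := by
    intro h
    exact hpD (by exact_mod_cast h)
  rcases hm with hm | hm
  · have hσz := frob_one (φ := φ) h3 hm hσ
    obtain ⟨hα0, hn0⟩ := pp_spec hp hm
    -- one of the two primes
    have key : ∀ α : Ei, Pq α → nr α = p → φ α ∈ v.asIdeal →
        (∀ t : Fin k → ZMod 3, (Gp (hk (tw ((D : ℕ) : Ei) d t) s) p)⁻¹ =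
          (1 - hk (tw ((D : ℕ) : Ei) d t) s α) * (1 - hk (tw ((D : ℕ) : Ei) d t) s (star α))) →
        (1 - ((ap (WD (D : ℤ)) p : ℂ) * (p : ℂ) ^ (-s)) • ρ σ⁻¹ +
          ((p : ℂ) ^ (1 - 2 * s)) • (ρ σ⁻¹ * ρ σ⁻¹)).det =
          ∏ t, ((Gp (hk (tw ((D : ℕ) : Ei) d t) s) p)⁻¹) ^ mt C ρ t := by
      intro α hα hn hαv hG
      have e1 : (ap (WD (D : ℤ)) p : ℂ) = toC w ^ (-cs α ((D : ℕ) : Ei)).val * toC α +
          toC w ^ (cs α ((D : ℕ) : Ei)).val * toC (star α) := by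
        have := Pool.Agent.N842.EB.ap_split (D := (D : ℤ)) hp hm hα hn hpD'
        rwa [Int.cast_natCast] at this
      set β := toC w ^ (-cs α ((D : ℕ) : Ei)).val * toC α with hβ
      set β' := toC w ^ (cs α ((D : ℕ) : Ei)).val * toC (star α) with hβ'
      have hββ : β * β' = (p : ℂ) := by
        have hww : toC w ^ (-cs α ((D : ℕ) : Ei)).val * toC w ^ (cs α ((D : ℕ) : Ei)).val = 1 := by
          rw [← tw_add, neg_add_cancel, ZMod.val_zero, pow_zero]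
        have hpC : toC α * toC (star α) = (p : ℂ) := by
          rw [← map_mul, mul_star, hn, map_intCast, Int.cast_natCast]
        rw [hβ, hβ']
        linear_combination (toC α * toC (star α)) * hww + hpC
      have e2 : (p : ℂ) ^ (1 - 2 * s) = β * β' * ((p : ℂ) ^ (-s)) ^ 2 := by
        rw [cpow_two hp, hββ, pow_two]
      rw [e1, e2, det_one C ρ hσz β β' ((p : ℂ) ^ (-s))]
      refine Finset.prod_congr rfl fun t _ => ?_
      congr 1
      rw [hG t, fac_one C.nrm hp hpD hpN hα hn (κ := C.kv σ) (fun i => ?_) t s]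
      exact kv_cs h3 C hα hαv hσz (q := p) (by rw [hn, Int.natAbs_natCast]) hσ
        (nd_of C.nrm hα (ndvd_nat hp hn (hpN i))).1
    rcases exists_al (φ := φ) hp hm hv with h | h
    · refine key _ hα0 hn0 h fun t => ?_
      unfold Gp
      rw [if_pos hm, ← mul_inv, inv_inv]
    · refine key _ (pq_star hα0) (by rw [nr_star, hn0]) h fun t => ?_
      unfold Gp
      rw [if_pos hm, ← mul_inv, inv_inv, star_star, mul_comm]
  · have hσz := frob_two (φ := φ) h3 hm hσ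
    have hfact : Fact p.Prime := ⟨hp⟩
    have hap : ap (WD (D : ℤ)) p = 0 := ap_cube (cube_two hm) _
    have hz2 := (CA.z_or φ σ).resolve_left hσz
    have hzz : (σ * σ) (zF φ) = zF φ := by
      rw [AlgEquiv.mul_apply, hz2, map_pow, hz2]
      have hz3 := Pool.Agent.N842.EB.z3 (zF_rel φ)
      linear_combination (zF φ) * hz3
    have hα : Pq (-((p : ℕ) : Ei)) := inert hp hm
    have hσσ : ∀ y : 𝓞 F, (σ * σ) • y - y ^ (p ^ 2) ∈ v.asIdeal := by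
      intro y
      have a1 := hσ (σ • y)
      have a2 : (σ • y) ^ p - (y ^ p) ^ p ∈ v.asIdeal := by
        obtain ⟨c, hc⟩ := sub_dvd_pow_sub_pow (σ • y) (y ^ p) p
        rw [hc]
        exact Ideal.mul_mem_right _ _ (hσ y)
      have a3 := Ideal.add_mem _ a1 a2
      have e : σ • σ • y - (σ • y) ^ p + ((σ • y) ^ p - (y ^ p) ^ p) = (σ * σ) • y - y ^ (p ^ 2) := by
        rw [mul_smul, ← pow_mul, pow_two]
        ring
      rwa [e] at a3
    rw [hap, Int.cast_zero, zero_mul, det_two C ρ hzz]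
    refine Finset.prod_congr rfl fun t _ => ?_
    congr 1
    unfold Gp
    rw [if_neg (by omega), inv_inv, fac_two C.nrm hp hm hpD hpN (κ := C.kv (σ * σ)) (fun i => ?_) t s]
    have hnr : nr (-((p : ℕ) : Ei)) = (p : ℤ) ^ 2 := by rw [nr_neg, nr_nat]
    refine kv_cs h3 C hα ?_ hzz (q := p ^ 2) ?_ hσσ (nd_of C.nrm hα fun h => ?_).1
    · rw [map_neg, map_natCast]
      exact neg_mem hv
    · rw [hnr, Int.natAbs_pow, Int.natAbs_natCast]
    · rw [neg_dvd] at h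
      exact hpN i (nat_dvd_nat h)

end Pool.Agent.V5helper41.SB
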