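import Pool.Agent.N842.EB.Loc2
import Pool.Agent.V5helper41.ST.AbL

/-!
# The Galois group of `F = ℚ(ω, θ_i)` and its Frobenius elements

`F = K(∛d_i)` with `d_i d̄_i = N_i³`.  Adapted from `N842/EB/Gal.lean` and `N842/EB/Frb.lean`.
-/

set_option autoImplicit false
set_option linter.unusedSectionVars false

open NumberField IsDedekindDomain Polynomial

namespace Pool.Agent.V5helper41.SB

open scoped Classical
open Pool.Agent.N842.EB hiding Ctx
open Pool.Agent.Y692.QS (Ei w nr toC star_w eta)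
open Pool.Agent.Y715.T.Rec (cs nn)
open Pool.Agent.Y715.T.RecG (Pq cs_spec)
open Pool.Agent.R432.V (mem_iff)

lemma natAbs_mod {α : Ei} (hα : Pq α) : (nr α).natAbs % 3 = 1 := by
  obtain ⟨c, hc⟩ := hα.three
  have h1 : α = 1 + 3 * c := by linear_combination hc
  have e1 : (1 : Ei).re = 1 := rfl
  have e2 : (1 : Ei).im = 0 := rfl
  have e3 : (3 : Ei).re = 3 := rfl
  have e4 : (3 : Ei).im = 0 := rfl
  have hre : α.re = 1 + 3 * c.re := by
    rw [h1, QuadraticAlgebra.re_add, QuadraticAlgebra.re_mul, e1, e3, e4]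
    ring
  have him : α.im = 3 * c.im := by
    rw [h1, QuadraticAlgebra.im_add, QuadraticAlgebra.im_mul, e2, e3, e4]
    ring
  have h2 : nr α = 1 + 3 * (2 * c.re + 3 * c.re ^ 2 - c.im - 3 * c.re * c.im + 3 * c.im ^ 2) := by
    unfold nr
    rw [hre, him]
    ring
  have h3 := Pool.Agent.Y692.QS.nr_nonneg α
  omega

/-- the context -/
structure CA {F : Type} [Field F] [NumberField F] (φ : Ei →+* 𝓞 F) {k : ℕ} (d : Fin k → Ei)
    (N : Fin k → ℕ) (x : Fin k → 𝓞 F) : Prop where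
  cube : ∀ i, x i ^ 3 = φ (d i)
  nrm : ∀ i, d i * star (d i) = ((N i : ℕ) : Ei) ^ 3
  N0 : ∀ i, N i ≠ 0
  gen : ∀ M : Subfield F, ((φ w : 𝓞 F) : F) ∈ M → (∀ i, ((x i : 𝓞 F) : F) ∈ M) → M = ⊤
  deg : Module.finrank ℚ F = 2 * 3 ^ k

section

variable {F : Type} [Field F] [NumberField F] {φ : Ei →+* 𝓞 F} {k : ℕ} {d : Fin k → Ei}
  {N : Fin k → ℕ} {x : Fin k → 𝓞 F}

/-- the root of unity -/
def zF (φ : Ei →+* 𝓞 F) : F := ((φ w : 𝓞 F) : F)

lemma zO_rel (φ : Ei →+* 𝓞 F) : φ w ^ 2 + φ w + 1 = 0 := by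
  have h : (w : Ei) ^ 2 + w + 1 = 0 := by decide
  rw [← map_pow, ← map_add, ← map_one φ, ← map_add, h, map_zero]

lemma zF_rel (φ : Ei →+* 𝓞 F) : zF φ ^ 2 + zF φ + 1 = 0 := by
  have h := congrArg (fun y : 𝓞 F => (y : F)) (zO_rel φ)
  push_cast at h
  exact h

lemma phi_eq (φ : Ei →+* 𝓞 F) (a : Ei) : ((φ a : 𝓞 F) : F) = (a.re : F) + (a.im : F) * zF φ := by
  have h : a = ((a.re : ℤ) : Ei) + ((a.im : ℤ) : Ei) * w := by
    ext
    · simp [w]
    · simp [w]
  conv_lhs => rw [h, map_add, map_mul, map_intCast, map_intCast]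
  push_cast
  rfl

namespace CA

variable (C : CA φ d N x)

/-- the element -/
noncomputable def yF (N : Fin k → ℕ) (x : Fin k → 𝓞 F) (i : Fin k) : F :=
  ((N i : ℕ) : F) / ((x i : 𝓞 F) : F)

include C in
lemma x3 (i : Fin k) : ((x i : 𝓞 F) : F) ^ 3 = ((φ (d i) : 𝓞 F) : F) := by
  rw [← C.cube i]
  push_cast
  rfl

include C in
lemma prd (i : Fin k) : ((φ (d i) : 𝓞 F) : F) * ((φ (star (d i)) : 𝓞 F) : F) =
    ((N i : ℕ) : F) ^ 3 := by
  have h := congrArg (fun y : Ei => ((φ y : 𝓞 F) : F)) (C.nrm i)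
  simp only [map_mul, map_pow, map_natCast] at h
  push_cast at h
  exact h

include C in
lemma x0 (i : Fin k) : ((x i : 𝓞 F) : F) ≠ 0 := by
  intro h
  have h1 := C.x3 i
  have h2 := C.prd i
  rw [← h1, h, zero_pow (by norm_num), zero_mul] at h2
  exact C.N0 i (by
    have h3 : ((N i : ℕ) : F) = 0 := pow_eq_zero_iff (by norm_num) |>.1 h2.symm
    exact_mod_cast h3)

include C in
lemma xy (i : Fin k) : ((x i : 𝓞 F) : F) * yF N x i = ((N i : ℕ) : F) := by
  unfold yF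
  rw [mul_div_cancel₀ _ (C.x0 i)]

include C in
lemma y0 (i : Fin k) : yF N x i ≠ 0 := by
  unfold yF
  exact div_ne_zero (by exact_mod_cast C.N0 i) (C.x0 i)

include C in
lemma y3 (i : Fin k) : yF N x i ^ 3 = ((φ (star (d i)) : 𝓞 F) : F) := by
  have h1 := C.x3 i
  have h2 := C.prd i
  have h3 : ((x i : 𝓞 F) : F) ^ 3 ≠ 0 := pow_ne_zero 3 (C.x0 i)
  unfold yF
  rw [div_pow, ← h2, ← h1, mul_div_assoc, mul_div_cancel₀ _ h3]

/-- the polynomial -/
noncomputable def pol (d : Fin k → Ei) (N : Fin k → ℕ) : Polynomial ℚ :=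
  (X ^ 2 + X + 1) * ∏ i, (X ^ 3 - (Polynomial.C (3 * (N i : ℚ)) * X +
    Polynomial.C ((2 * (d i).re - (d i).im : ℤ) : ℚ)))

include C in
/-- `F` is a Galois extension of `ℚ` -/
theorem gal : IsGalois ℚ F := by
  have hz := zF_rel φ
  have hT : ∀ i, ((x i : 𝓞 F) : F) ^ 3 + yF N x i ^ 3 =
      (((2 * (d i).re - (d i).im : ℤ) : ℤ) : F) := by
    intro i
    rw [C.x3, C.y3, phi_eq, phi_eq, Pool.Agent.Y692.QS.star_re, Pool.Agent.Y692.QS.star_im]
    push_cast
    ring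
  have hfac : ∀ (i : Fin k) (Y : F), Y ^ 3 - (3 * ((N i : ℕ) : F) * Y +
      (((2 * (d i).re - (d i).im : ℤ) : ℤ) : F)) =
      (Y - (((x i : 𝓞 F) : F) + yF N x i)) *
      ((Y - (zF φ * ((x i : 𝓞 F) : F) + zF φ ^ 2 * yF N x i)) *
       (Y - (zF φ ^ 2 * ((x i : 𝓞 F) : F) + zF φ * yF N x i))) := by
    intro i Y
    rw [← hT i, ← C.xy i]
    set a := ((x i : 𝓞 F) : F)
    set b := yF N x i
    set z := zF φ
    have hz3 : z ^ 3 = 1 := by linear_combination (z - 1) * hz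
    have hz4 : z ^ 4 = z := by linear_combination z * hz3
    have e : (Y - (a + b)) * ((Y - (z * a + z ^ 2 * b)) * (Y - (z ^ 2 * a + z * b))) =
        Y ^ 3 - Y ^ 2 * ((a + b) * (1 + z + z ^ 2)) + Y * ((a + b) ^ 2 * (z + z ^ 2) +
          (z ^ 3 * a ^ 2 + (z ^ 2 + z ^ 4) * (a * b) + z ^ 3 * b ^ 2)) -
          (a + b) * (z ^ 3 * a ^ 2 + (z ^ 2 + z ^ 4) * (a * b) + z ^ 3 * b ^ 2) := by ring
    rw [e, hz3, hz4]
    linear_combination (Y ^ 2 * (a + b) - Y * ((a + b) ^ 2 + a * b) + (a + b) * (a * b)) * hz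
  have hpolC : ∀ i : Fin k, ((X ^ 3 - (Polynomial.C (3 * (N i : ℚ)) * X +
      Polynomial.C ((2 * (d i).re - (d i).im : ℤ) : ℚ)) : ℚ[X]).map (algebraMap ℚ F)) =
      (X - Polynomial.C (((x i : 𝓞 F) : F) + yF N x i)) *
      ((X - Polynomial.C (zF φ * ((x i : 𝓞 F) : F) + zF φ ^ 2 * yF N x i)) *
       (X - Polynomial.C (zF φ ^ 2 * ((x i : 𝓞 F) : F) + zF φ * yF N x i))) := by
    intro i
    apply Polynomial.funext
    intro Y
    have h1 := hfac i Y
    simp only [Polynomial.map_sub, Polynomial.map_pow, Polynomial.map_X, Polynomial.map_add,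
      Polynomial.map_mul, Polynomial.map_C, eval_sub, eval_mul, eval_pow, eval_X, eval_add, eval_C]
    rw [← h1]
    congr 2
    · congr 1
      rw [map_mul, map_ofNat, map_natCast]
    · exact map_intCast _ _
  have hquadC : ((X ^ 2 + X + 1 : ℚ[X]).map (algebraMap ℚ F)) =
      (X - Polynomial.C (zF φ)) * (X - Polynomial.C (zF φ ^ 2)) := by
    apply Polynomial.funext
    intro Y
    simp only [Polynomial.map_pow, Polynomial.map_X, Polynomial.map_add,
      Polynomial.map_one, eval_sub, eval_mul, eval_pow, eval_X, eval_add, eval_C, eval_one]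
    linear_combination (Y + 1 - zF φ) * hz
  have hsp : ((pol d N).map (algebraMap ℚ F)).Splits := by
    unfold pol
    rw [Polynomial.map_mul, Polynomial.map_prod, hquadC]
    refine Polynomial.Splits.mul ?_ ?_
    · exact (Polynomial.Splits.X_sub_C _).mul (Polynomial.Splits.X_sub_C _)
    · refine Polynomial.Splits.prod fun i _ => ?_
      rw [hpolC i]
      exact (Polynomial.Splits.X_sub_C _).mul ((Polynomial.Splits.X_sub_C _).mul
        (Polynomial.Splits.X_sub_C _))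
  have hne : pol d N ≠ 0 := by
    unfold pol
    refine mul_ne_zero ?_ (Finset.prod_ne_zero_iff.2 fun i _ => ?_)
    · intro h
      have h1 := congrArg (Polynomial.eval 0) h
      simp at h1
    · intro h
      have h1 : (X ^ 3 - (Polynomial.C (3 * (N i : ℚ)) * X +
          Polynomial.C ((2 * (d i).re - (d i).im : ℤ) : ℚ)) : ℚ[X]).natDegree = 3 := by
        rw [natDegree_sub_eq_left_of_natDegree_lt]
        · exact natDegree_X_pow 3
        · rw [natDegree_X_pow]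
          exact lt_of_le_of_lt natDegree_linear_le (by norm_num)
      rw [h, natDegree_zero] at h1
      exact absurd h1 (by norm_num)
  have hroot : ∀ y : F, (((pol d N).map (algebraMap ℚ F)).eval y = 0) →
      y ∈ (pol d N).rootSet F := fun y hy => by
    rw [mem_rootSet]
    refine ⟨hne, ?_⟩
    rw [aeval_def, ← eval_map]
    exact hy
  have hri : ∀ (i : Fin k) (y : F), (y = ((x i : 𝓞 F) : F) + yF N x i ∨
      y = zF φ * ((x i : 𝓞 F) : F) + zF φ ^ 2 * yF N x i) →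
      ((pol d N).map (algebraMap ℚ F)).eval y = 0 := by
    intro i y hy
    unfold pol
    rw [Polynomial.map_mul, Polynomial.map_prod, eval_mul, eval_prod,
      Finset.prod_eq_zero (Finset.mem_univ i), mul_zero]
    rw [hpolC i]
    simp only [eval_mul, eval_sub, eval_X, eval_C]
    rcases hy with h | h
    · rw [h]; ring
    · rw [h]; ring
  have hadj : IntermediateField.adjoin ℚ ((pol d N).rootSet F) = ⊤ := by
    have hzm : zF φ ∈ IntermediateField.adjoin ℚ ((pol d N).rootSet F) := by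
      apply IntermediateField.subset_adjoin
      apply hroot
      unfold pol
      rw [Polynomial.map_mul, eval_mul, hquadC]
      simp only [eval_mul, eval_sub, eval_X, eval_C]
      ring
    have h1 := C.gen (IntermediateField.adjoin ℚ ((pol d N).rootSet F)).toSubfield hzm ?_
    · rw [eq_top_iff]
      intro y _
      have h2 : y ∈ (IntermediateField.adjoin ℚ ((pol d N).rootSet F)).toSubfield := by
        rw [h1]; trivial
      exact h2
    · intro i
      have m1 : ((x i : 𝓞 F) : F) + yF N x i ∈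
          IntermediateField.adjoin ℚ ((pol d N).rootSet F) :=
        IntermediateField.subset_adjoin _ _ (hroot _ (hri i _ (Or.inl rfl)))
      have m2 : zF φ * ((x i : 𝓞 F) : F) + zF φ ^ 2 * yF N x i ∈
          IntermediateField.adjoin ℚ ((pol d N).rootSet F) :=
        IntermediateField.subset_adjoin _ _ (hroot _ (hri i _ (Or.inr rfl)))
      have hd : zF φ ^ 2 - zF φ ≠ 0 := by
        intro h
        have h3 : zF φ * (zF φ - 1) = 0 := by linear_combination h
        rcases mul_eq_zero.1 h3 with h4 | h4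
        · exact z0 hz h4
        · exact z1 hz (sub_eq_zero.1 h4)
      have e : ((x i : 𝓞 F) : F) = (zF φ ^ 2 * (((x i : 𝓞 F) : F) + yF N x i) -
          (zF φ * ((x i : 𝓞 F) : F) + zF φ ^ 2 * yF N x i)) / (zF φ ^ 2 - zF φ) := by
        rw [eq_div_iff hd]
        ring
      show ((x i : 𝓞 F) : F) ∈ IntermediateField.adjoin ℚ ((pol d N).rootSet F)
      rw [e]
      exact div_mem (sub_mem (mul_mem (pow_mem hzm 2) m1) m2) (sub_mem (pow_mem hzm 2) hzm)
  have : (pol d N).IsSplittingField ℚ F :=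
    isSplittingField_iff_intermediateField.2 ⟨hsp, hadj⟩
  have hN : Normal ℚ F := Normal.of_isSplittingField (pol d N)
  exact ⟨⟩

lemma z_or (φ : Ei →+* 𝓞 F) (σ : F ≃ₐ[ℚ] F) : σ (zF φ) = zF φ ∨ σ (zF φ) = zF φ ^ 2 := by
  apply z_cases (zF_rel φ)
  rw [← map_pow, ← map_add, ← map_one σ, ← map_add, zF_rel, map_zero]

lemma z_sq_ne (φ : Ei →+* 𝓞 F) : zF φ ^ 2 ≠ zF φ := by
  intro h
  apply z1 (zF_rel φ)
  have h1 : zF φ * (zF φ - 1) = 0 := by linear_combination h
  rcases mul_eq_zero.1 h1 with h2 | h2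
  · exact absurd h2 (z0 (zF_rel φ))
  · exact sub_eq_zero.1 h2

lemma sig_phi {σ : F ≃ₐ[ℚ] F} (h : σ (zF φ) = zF φ) (a : Ei) :
    σ ((φ a : 𝓞 F) : F) = ((φ a : 𝓞 F) : F) := by
  rw [phi_eq, map_add, map_mul, map_intCast, map_intCast, h]

lemma sig_phi' {σ : F ≃ₐ[ℚ] F} (h : σ (zF φ) ≠ zF φ) (a : Ei) :
    σ ((φ a : 𝓞 F) : F) = ((φ (star a) : 𝓞 F) : F) := by
  have h1 := (z_or φ σ).resolve_left h
  rw [phi_eq, map_add, map_mul, map_intCast, map_intCast, h1, phi_eq,
    Pool.Agent.Y692.QS.star_re, Pool.Agent.Y692.QS.star_im]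
  push_cast
  linear_combination (a.im : F) * zF_rel φ

/-- the exponents -/
lemma ex (C : CA φ d N x) (σ : F ≃ₐ[ℚ] F) (i : Fin k) :
    ∃ c : ZMod 3, σ ((x i : 𝓞 F) : F) = zF φ ^ c.val *
      (if σ (zF φ) = zF φ then ((x i : 𝓞 F) : F) else yF N x i) := by
  apply cubes (zF_rel φ)
  rw [← map_pow, C.x3 i]
  split_ifs with h
  · rw [sig_phi h, C.x3 i]
  · rw [sig_phi' h, C.y3 i]

/-- the exponents of an automorphism -/
noncomputable def kv (C : CA φ d N x) (σ : F ≃ₐ[ℚ] F) (i : Fin k) : ZMod 3 :=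
  (C.ex σ i).choose

lemma kv_spec (C : CA φ d N x) (σ : F ≃ₐ[ℚ] F) (i : Fin k) :
    σ ((x i : 𝓞 F) : F) = zF φ ^ (C.kv σ i).val *
      (if σ (zF φ) = zF φ then ((x i : 𝓞 F) : F) else yF N x i) := (C.ex σ i).choose_spec

lemma kv_spec1 (C : CA φ d N x) {σ : F ≃ₐ[ℚ] F} (h : σ (zF φ) = zF φ) (i : Fin k) :
    σ ((x i : 𝓞 F) : F) = zF φ ^ (C.kv σ i).val * ((x i : 𝓞 F) : F) := by
  have h1 := C.kv_spec σ i
  rwa [if_pos h] at h1

lemma ext (C : CA φ d N x) {σ τ : F ≃ₐ[ℚ] F} (h : σ (zF φ) = τ (zF φ))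
    (h' : ∀ i, σ ((x i : 𝓞 F) : F) = τ ((x i : 𝓞 F) : F)) : σ = τ := by
  have h5 := C.gen (RingHom.eqLocusField (σ : F →+* F) (τ : F →+* F)) h h'
  ext y
  have h7 : y ∈ RingHom.eqLocusField (σ : F →+* F) (τ : F →+* F) := by rw [h5]; trivial
  exact h7

/-- all the pairs are realized -/
theorem surj (C : CA φ d N x) (b : Prop) (c : Fin k → ZMod 3) :
    ∃ σ : F ≃ₐ[ℚ] F, ((σ (zF φ) = zF φ) ↔ b) ∧ C.kv σ = c := by
  have hG := C.gal
  let f : (F ≃ₐ[ℚ] F) → Bool × (Fin k → ZMod 3) := fun σ => (decide (σ (zF φ) = zF φ), C.kv σ)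
  have hinj : Function.Injective f := by
    intro σ τ h
    have h1 : (σ (zF φ) = zF φ ↔ τ (zF φ) = zF φ) := by
      have := congrArg Prod.fst h
      simpa [f] using this
    have h2 : C.kv σ = C.kv τ := congrArg Prod.snd h
    apply C.ext
    · rcases z_or φ σ with h3 | h3
      · rw [h3, h1.1 h3]
      · rcases z_or φ τ with h4 | h4
        · have h5 := h1.2 h4
          rw [h5] at h3
          exact absurd h3.symm (z_sq_ne φ)
        · rw [h3, h4]
    · intro i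
      rw [C.kv_spec σ i, C.kv_spec τ i, h2]
      simp only [h1]
  have hcard : Fintype.card (F ≃ₐ[ℚ] F) = Fintype.card (Bool × (Fin k → ZMod 3)) := by
    have h1 := IsGalois.card_aut_eq_finrank ℚ F
    rw [Nat.card_eq_fintype_card, C.deg] at h1
    rw [h1, Fintype.card_prod, Fintype.card_bool, Fintype.card_fun, ZMod.card, Fintype.card_fin]
  obtain ⟨σ, hσ⟩ := ((Fintype.bijective_iff_injective_and_card f).2 ⟨hinj, hcard⟩).2
    (decide b, c)
  refine ⟨σ, ?_, congrArg Prod.snd hσ⟩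
  have := congrArg Prod.fst hσ
  simpa [f] using this

/-- the elements that fix `z` -/
noncomputable def s (C : CA φ d N x) (c : Fin k → ZMod 3) : F ≃ₐ[ℚ] F :=
  (C.surj True c).choose

lemma s_z (C : CA φ d N x) (c : Fin k → ZMod 3) : C.s c (zF φ) = zF φ :=
  (C.surj True c).choose_spec.1.2 trivial

lemma kv_s (C : CA φ d N x) (c : Fin k → ZMod 3) : C.kv (C.s c) = c :=
  (C.surj True c).choose_spec.2

lemma s_x (C : CA φ d N x) (c : Fin k → ZMod 3) (i : Fin k) :
    C.s c ((x i : 𝓞 F) : F) = zF φ ^ (c i).val * ((x i : 𝓞 F) : F) := by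
  have h := C.kv_spec1 (C.s_z c) i
  rwa [C.kv_s] at h

lemma s_add (C : CA φ d N x) (c c' : Fin k → ZMod 3) :
    C.s (c + c') = C.s c * C.s c' := by
  apply C.ext
  · rw [AlgEquiv.mul_apply, C.s_z, C.s_z, C.s_z]
  · intro i
    rw [AlgEquiv.mul_apply, C.s_x, C.s_x, map_mul, map_pow, C.s_z,
      C.s_x, Pi.add_apply, zp_add (zF_rel φ)]
    ring

lemma s_zero (C : CA φ d N x) : C.s 0 = 1 := by
  have h := C.s_add 0 0
  rw [add_zero] at h
  exact (mul_eq_left.1 h.symm)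

/-- an automorphism that fixes `z` -/
lemma eq_s (C : CA φ d N x) {σ : F ≃ₐ[ℚ] F} (h : σ (zF φ) = zF φ) : σ = C.s (C.kv σ) := by
  apply C.ext
  · rw [h, C.s_z]
  · intro i
    rw [C.kv_spec1 h i, C.s_x]

end CA

/-! ### the Frobenius elements -/

section place

variable {v : HeightOneSpectrum (𝓞 F)} (h3 : ((3 : ℕ) : 𝓞 F) ∉ v.asIdeal)

include h3 in
lemma one_sub {c : ZMod 3} (hc : φ w ^ c.val - 1 ∈ v.asIdeal) : c = 0 := by
  have hrel := zO_rel φ
  have hc3 : ∀ c : ZMod 3, c = 0 ∨ c = 1 ∨ c = 2 := by decide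
  have e2 : ((3 : ℕ) : 𝓞 F) = (φ w - 1) * (φ w ^ 2 - 1) := by
    push_cast
    linear_combination (-φ w + 2) * hrel
  rcases hc3 c with h | h | h
  · exact h
  · exfalso
    rw [h] at hc
    have e : (1 : ZMod 3).val = 1 := rfl
    rw [e, pow_one] at hc
    apply h3
    rw [e2]
    exact Ideal.mul_mem_right _ _ hc
  · exfalso
    rw [h] at hc
    have e : (2 : ZMod 3).val = 2 := rfl
    rw [e] at hc
    apply h3
    rw [e2]
    exact Ideal.mul_mem_left _ _ hc

include h3 in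
lemma pow_sub {a b : ZMod 3} (h : φ w ^ a.val - φ w ^ b.val ∈ v.asIdeal) : a = b := by
  have h1 : φ w ^ (a - b).val - 1 ∈ v.asIdeal := by
    have e1 := zp_add (zO_rel φ) a (-b)
    have e2 := zp_add (zO_rel φ) b (-b)
    rw [add_neg_cancel, ZMod.val_zero, pow_zero] at e2
    rw [← sub_eq_add_neg] at e1
    have e : φ w ^ (a - b).val - 1 = (φ w ^ a.val - φ w ^ b.val) * φ w ^ (-b).val := by
      rw [e1, sub_mul, ← e2]
    rw [e]
    exact Ideal.mul_mem_right _ _ h
  exact sub_eq_zero.1 (one_sub h3 h1)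

lemma z_pow (φ : Ei →+* 𝓞 F) (p : ℕ) : φ w ^ p = φ w ^ (p % 3) := by
  have h : φ w ^ 3 = 1 := by linear_combination (φ w - 1) * zO_rel φ
  conv_lhs => rw [← Nat.mod_add_div p 3, pow_add, pow_mul, h, one_pow, mul_one]

include h3 in
/-- the Frobenius elements at the primes `1` modulo `3` fix `z` -/
lemma frob_one {p : ℕ} (hp : p % 3 = 1) {σ : F ≃ₐ[ℚ] F}
    (hσ : ∀ y : 𝓞 F, σ • y - y ^ p ∈ v.asIdeal) : σ (zF φ) = zF φ := by
  by_contra h
  have h0 : σ • φ w = φ w ^ 2 := by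
    apply RingOfIntegers.ext
    exact (CA.z_or φ σ).resolve_left h
  have h1 := hσ (φ w)
  rw [h0, z_pow φ p, hp] at h1
  have h2 : (2 : ZMod 3) = 1 := pow_sub h3 h1
  exact absurd h2 (by decide)

include h3 in
/-- the Frobenius elements at the primes `2` modulo `3` do not fix `z` -/
lemma frob_two {p : ℕ} (hp : p % 3 = 2) {σ : F ≃ₐ[ℚ] F}
    (hσ : ∀ y : 𝓞 F, σ • y - y ^ p ∈ v.asIdeal) : σ (zF φ) ≠ zF φ := by
  intro h
  have h0 : σ • φ w = φ w := by
    apply RingOfIntegers.ext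
    exact h
  have h1 := hσ (φ w)
  rw [h0, z_pow φ p, hp] at h1
  have h2 : (1 : ZMod 3) = 2 := by
    apply pow_sub (φ := φ) h3
    have e1 : (1 : ZMod 3).val = 1 := rfl
    have e2 : (2 : ZMod 3).val = 2 := rfl
    rw [e1, e2, pow_one]
    exact h1
  exact absurd h2 (by decide)

include h3 in
/-- **The exponents of the Frobenius elements are the cubic symbols.** -/
lemma kv_cs (C : CA φ d N x) {α : Ei} (hα : Pq α) (hαv : φ α ∈ v.asIdeal) {g : F ≃ₐ[ℚ] F}
    (hg : g (zF φ) = zF φ) {q : ℕ} (hq : q = (nr α).natAbs)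
    (hgq : ∀ y : 𝓞 F, g • y - y ^ q ∈ v.asIdeal) {i : Fin k} (hd : ¬ α ∣ d i) :
    C.kv g i = cs α (d i) := by
  have hxv : x i ∉ v.asIdeal := by
    intro h
    apply hd
    have h1 : φ (d i) ∈ v.asIdeal := by
      rw [← C.cube i]
      exact Ideal.pow_mem_of_mem _ h 3 (by norm_num)
    exact (mem_iff φ hα hαv (d i)).1 h1
  have hnn : nn α = (q - 1) / 3 := by
    unfold nn
    rw [hq]
  have hq3 : q = 3 * ((q - 1) / 3) + 1 := by
    have h9 := Pool.Agent.V5helper41.SB.natAbs_mod hα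
    rw [← hq] at h9
    omega
  have hsm : g • x i = φ w ^ (C.kv g i).val * x i := by
    apply RingOfIntegers.ext
    have h1 := C.kv_spec1 hg i
    push_cast
    exact h1
  have h1 := hgq (x i)
  rw [hsm] at h1
  have h2 : x i ^ q = φ (d i) ^ nn α * x i := by
    conv_lhs => rw [hq3]
    rw [pow_succ, pow_mul, C.cube i, hnn]
  have e : φ w ^ (C.kv g i).val * x i - x i ^ q =
      (φ w ^ (C.kv g i).val - φ (d i) ^ nn α) * x i := by
    rw [h2]
    ring
  rw [e] at h1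
  have h4 := (v.isPrime.mem_or_mem h1).resolve_right hxv
  obtain ⟨c, hc⟩ := cs_spec hα.prime hα.norm hd
  have h5 := congrArg φ hc
  rw [map_sub, map_pow, map_pow, map_mul] at h5
  have h6 : φ (d i) ^ nn α - φ w ^ (cs α (d i)).val ∈ v.asIdeal := by
    rw [h5]
    exact Ideal.mul_mem_right _ _ hαv
  apply pow_sub h3
  have h7 := Ideal.add_mem _ h4 h6
  have e' : φ w ^ (C.kv g i).val - φ (d i) ^ nn α + (φ (d i) ^ nn α - φ w ^ (cs α (d i)).val) =
      φ w ^ (C.kv g i).val - φ w ^ (cs α (d i)).val := by ring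
  rwa [e'] at h7

end place

end

end Pool.Agent.V5helper41.SB
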