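import Pool.Agent.V5helper41.SB.Al
import Pool.Agent.V5helper41.BA.Main

/-!
# The `L`-functions of the products in the odd degrees and their orders at the centre
-/

set_option autoImplicit false
set_option linter.unusedSectionVars false
set_option linter.unusedVariables false

open NumberField IsDedekindDomain

namespace Pool.Agent.V5helper41.SB

open scoped Classical
open Finset
open Pool.Agent.N842.EB (Us dt)
open Pool.Agent.Y692.QS (Ei w nr toC)
open Pool.Agent.Y715.T.RecG (Pq)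
open Pool.Agent.Y696.CT (cpow_two)
open Pool.Agent.R432.V (Gp regroup nat_dvd_nat)
open Pool.Agent.Y703.CT (WD)
open Pool.Agent.W97.MT (ap)
open Pool.Agent.V5helper41.ST (hk tw HL)
open Pool.Agent.V5helper41.BA (ne_of_ndvd ap_beta beta_mul beta_abs ev tns Aw Aw_odd tns_prod det_quad)
open Pool.Agent.N883.DQ (IsBeta eigs Dt)

/-! ### orders -/

lemma ord_shift {g : ℂ → ℂ} (a s₀ : ℂ) :
    analyticOrderAt (fun s => g (s - a)) s₀ = analyticOrderAt g (s₀ - a) := by
  have h : deriv (fun s : ℂ => s - a) s₀ ≠ 0 := by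
    rw [deriv_sub_const]
    simp
  exact analyticOrderAt_comp_of_deriv_ne_zero (f := g) (g := fun s : ℂ => s - a)
    ((analyticAt_id).sub analyticAt_const) h

lemma ord_prod {ι : Type} (S : Finset ι) {f : ι → ℂ → ℂ} {z : ℂ}
    (hf : ∀ i ∈ S, AnalyticAt ℂ (f i) z) :
    AnalyticAt ℂ (fun s => ∏ i ∈ S, f i s) z ∧
      analyticOrderAt (fun s => ∏ i ∈ S, f i s) z = ∑ i ∈ S, analyticOrderAt (f i) z := by
  induction S using Finset.induction_on with
  | empty =>
    simp only [Finset.prod_empty, Finset.sum_empty]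
    refine ⟨analyticAt_const, ?_⟩
    rw [(analyticAt_const).analyticOrderAt_eq_zero]
    exact one_ne_zero
  | insert a S ha ih =>
    obtain ⟨h1, h2⟩ := ih fun i hi => hf i (Finset.mem_insert_of_mem hi)
    have e : (fun s => ∏ i ∈ insert a S, f i s) = f a * fun s => ∏ i ∈ S, f i s := by
      funext s
      rw [Finset.prod_insert ha, Pi.mul_apply]
    have ha' := hf a (Finset.mem_insert_self _ _)
    rw [e, analyticOrderAt_mul ha' h1, h2, Finset.sum_insert ha]
    exact ⟨ha'.mul h1, rfl⟩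

/-- the factors at the rational primes -/
lemma hp_primes {B : ℕ} {f : ℕ → ℂ} {a : ℂ}
    (h : HasProd (fun p : {p : ℕ // p.Prime ∧ ¬ p ∣ B} => f p.1) a) :
    HasProd (fun p : Nat.Primes => if (p : ℕ) ∣ B then 1 else f p) a := by
  let ι : {p : ℕ // p.Prime ∧ ¬ p ∣ B} → Nat.Primes := fun p => ⟨p.1, p.2.1⟩
  have hι : Function.Injective ι := by
    intro p q h
    exact Subtype.ext (congrArg (fun z : Nat.Primes => (z : ℕ)) h)
  rw [← hι.hasProd_iff]
  · refine h.congr_fun fun p => ?_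
    show (if p.1 ∣ B then 1 else f p.1) = f p.1
    rw [if_neg p.2.2]
  · intro p hp
    rw [if_pos]
    by_contra hcon
    exact hp ⟨⟨p, p.2, hcon⟩, rfl⟩

variable {F : Type} [Field F] [NumberField F] {φ : Ei →+* 𝓞 F} {k : ℕ} {d : Fin k → Ei}
  {N : Fin k → ℕ} {x : Fin k → 𝓞 F} {b : ℕ}

/-- **The local factor.** -/
theorem loc_fac (C : CA φ d N x) (ρ : (F ≃ₐ[ℚ] F) →* Matrix (Fin b) (Fin b) ℂ) {p : ℕ}
    [hpf : Fact p.Prime] (hp3 : p ≠ 3) (hpN : ∀ i, ¬ p ∣ N i)
    {v : HeightOneSpectrum (𝓞 F)} (hv : (p : 𝓞 F) ∈ v.asIdeal)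
    {σ : F ≃ₐ[ℚ] F} (hσ : ∀ y : 𝓞 F, σ • y - y ^ p ∈ v.asIdeal) {β : ZMod p → ℂ} (hβ : IsBeta β)
    {c : ℕ} {a : Fin (2 * c + 3) → ℤ} (ha : ∀ i, ¬ (p : ℤ) ∣ a i)
    {D U : Finset (Fin (2 * c + 3)) → ℕ}
    (hE : ∀ T, T.card = c → (Dt a T).natAbs = D T * U T ^ 3) (k' : ℕ) (s : ℂ) :
    ((tns p (eigs c a p fun δ => β ((δ : ℤ) : ZMod p)) (ev (ρ σ⁻¹)) k').map fun α =>
      (1 - α * (p : ℂ) ^ (-s))⁻¹).prod =
      ∏ T ∈ (univ : Finset (Fin (2 * c + 3))).powersetCard c,
        ∏ t : Fin k → ZMod 3,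
          (Gp (hk (tw ((D T : ℕ) : Ei) d t) (s - c - k')) p) ^ mt C ρ t := by
  have hp := hpf.out
  have h0 : (p : ℂ) ≠ 0 := by exact_mod_cast hp.ne_zero
  have hx : (p : ℂ) ^ c * ((p : ℂ) ^ k' * (p : ℂ) ^ (-s)) = (p : ℂ) ^ (-(s - c - k')) := by
    rw [show -(s - (c : ℂ) - (k' : ℂ)) = (c : ℂ) + ((k' : ℂ) + -s) by ring,
      Complex.cpow_add _ _ h0, Complex.cpow_add _ _ h0, Complex.cpow_natCast, Complex.cpow_natCast]
  rw [tns_prod]
  unfold eigs
  rw [Multiset.map_bind, Multiset.prod_bind]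
  refine congrArg Multiset.prod (Multiset.map_congr rfl fun T hT => ?_)
  have hTc : T.card = c := (Finset.mem_powersetCard.1 (show T ∈ powersetCard c univ from hT)).2
  have hD : ¬ (p : ℤ) ∣ Dt a T := by
    have hpp : Prime (p : ℤ) := Nat.prime_iff_prime_int.1 hp
    intro h
    unfold Dt at h
    rcases hpp.dvd_or_dvd h with h | h
    · obtain ⟨i, -, hi⟩ := (hpp.dvd_finsetProd_iff _).1 h
      exact ha i hi
    · obtain ⟨i, -, hi⟩ := (hpp.dvd_finsetProd_iff _).1 h
      exact ha i hi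
  have hD'' : ¬ p ∣ (Dt a T).natAbs := fun h => hD (Int.natCast_dvd.2 h)
  rw [hE T hTc] at hD''
  have hDT : ¬ p ∣ D T := fun h => hD'' (h.mul_right _)
  have hUT : ¬ p ∣ U T := fun h => hD'' ((dvd_pow h (by norm_num)).mul_left _)
  have hDT' : ¬ (p : ℤ) ∣ ((D T : ℕ) : ℤ) := fun h => hDT (by exact_mod_cast h)
  set bb := β ((Dt a T : ℤ) : ZMod p) with hbb
  have hβT : β (((D T : ℕ) : ℤ) : ZMod p) = bb := by
    rw [hbb, ← beta_abs hβ (Dt a T), hE T hTc]
    have hu : ((U T : ℕ) : ZMod p) ≠ 0 := by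
      rwa [Ne, ZMod.natCast_eq_zero_iff]
    have h1 := hβ.1 ((D T : ℕ) : ZMod p) ((U T : ℕ) : ZMod p) hu
    push_cast
    rw [h1]
  have e1 := mat_id C ρ hp hp3 hDT hpN hv hσ (s - c - k')
  have e2 : (ap (WD ((D T : ℕ) : ℤ)) p : ℂ) = bb + (starRingEnd ℂ) bb := by
    rw [ap_beta hβ hDT', hβT]
  have e3 : bb * (starRingEnd ℂ) bb = p := beta_mul hβ hD
  have e4 : (p : ℂ) ^ (1 - 2 * (s - c - k')) =
      bb * (starRingEnd ℂ) bb * ((p : ℂ) ^ (-(s - c - k'))) ^ 2 := by
    rw [cpow_two hp, e3, sq]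
  rw [e2, e4, det_quad] at e1
  have e6 : ∏ t : Fin k → ZMod 3, (Gp (hk (tw ((D T : ℕ) : Ei) d t) (s - c - k')) p) ^ mt C ρ t =
      (∏ t : Fin k → ZMod 3,
        ((Gp (hk (tw ((D T : ℕ) : Ei) d t) (s - c - k')) p)⁻¹) ^ mt C ρ t)⁻¹ := by
    rw [← Finset.prod_inv_distrib]
    exact Finset.prod_congr rfl fun t _ => by rw [inv_pow, inv_inv]
  rw [e6, ← e1, ← Multiset.prod_map_inv]
  simp only [Multiset.insert_eq_cons, Multiset.map_cons, Multiset.map_singleton,
    Multiset.prod_cons, Multiset.prod_singleton]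
  rw [← Multiset.prod_map_mul]
  refine congrArg Multiset.prod (Multiset.map_congr rfl fun x _ => ?_)
  rw [← mul_inv, ← hx]
  congr 1
  ring

/-- **The `L`-function of the product in an odd degree and its order at the centre.** -/
theorem main_L (C : CA φ d N x) {B : ℕ} (h3B : 3 ∣ B) (hNB : ∀ i, N i ∣ B) {c : ℕ}
    {a : Fin (2 * c + 3) → ℤ} (haB : ∀ p : ℕ, p.Prime → ¬ p ∣ B → ∀ i, ¬ (p : ℤ) ∣ a i)
    {D U : Finset (Fin (2 * c + 3)) → ℕ}
    (hD : ∀ T, T.card = c → (Dt a T).natAbs = D T * U T ^ 3)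
    {G : Finset (Fin (2 * c + 3)) → (Fin k → ZMod 3) → ℂ → ℂ}
    (hG : ∀ T, T.card = c → ∀ t, HL (tw ((D T : ℕ) : Ei) d t) ((B : ℕ) : Ei) (G T t))
    (hG1 : ∀ T, T.card = c → ∀ t, t ≠ 0 → G T t 1 ≠ 0) (nY : ℕ)
    {b : ℕ → ℕ} (ρ : ∀ k, (F ≃ₐ[ℚ] F) →* Matrix (Fin (b k)) (Fin (b k)) ℂ)
    {v : Nat.Primes → HeightOneSpectrum (𝓞 F)}
    (hv : ∀ p : Nat.Primes, ((p : ℕ) : 𝓞 F) ∈ (v p).asIdeal)
    {σ : Nat.Primes → F ≃ₐ[ℚ] F}
    (hσ : ∀ (p : Nat.Primes) (y : 𝓞 F), σ p • y - y ^ (p : ℕ) ∈ (v p).asIdeal)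
    {β : ∀ p : Nat.Primes, ZMod p → ℂ}
    (hβ : ∀ p : Nat.Primes, ¬ (p : ℕ) ∣ B → (have := Fact.mk p.2; IsBeta (β p)))
    {i : ℕ} (hi : Odd i) :
    ∃ L : ℂ → ℂ, Differentiable ℂ L ∧ (∀ s : ℂ, (i : ℝ) / 2 + 1 < s.re →
      HasProd (fun p : Nat.Primes => if (p : ℕ) ∣ B then 1 else
        ((Aw (2 * c + 1) nY ((p : ℕ) : ℂ) (eigs c a p fun δ => β p ((δ : ℤ) : ZMod p))
          (fun k => ev (ρ k (σ p)⁻¹)) i).map fun α =>
            (1 - α * ((p : ℕ) : ℂ) ^ (-s))⁻¹).prod) (L s)) ∧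
      analyticOrderAt L ((i + 1) / 2) = ∑ k' ∈ range (nY + 1), if 2 * c + 1 + 2 * k' = i then
        (mt C (ρ k') 0 : ℕ∞) * ∑ T ∈ (univ : Finset (Fin (2 * c + 3))).powersetCard c,
          analyticOrderAt (G T 0) 1 else 0 := by
  have hreg : ∀ T, T.card = c → ∀ t, ∀ s : ℂ, 3 / 2 < s.re →
      HasProd (fun p : Nat.Primes => if (p : ℕ) ∣ B then 1 else
        Gp (hk (tw ((D T : ℕ) : Ei) d t) s) p) (G T t s) := fun T hT t s hs =>
    hp_primes (f := fun p => Gp (hk (tw ((D T : ℕ) : Ei) d t) s) p)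
      (regroup h3B ((hG T hT t).2 s hs))
  have hd : ∀ T, T.card = c → ∀ t, Differentiable ℂ (G T t) := fun T hT t => (hG T hT t).1
  have hcT : ∀ T ∈ (univ : Finset (Fin (2 * c + 3))).powersetCard c, T.card = c := fun T hT =>
    (Finset.mem_powersetCard.1 hT).2
  by_cases hk : ∃ k', k' < nY + 1 ∧ 2 * c + 1 + 2 * k' = i
  · obtain ⟨k', hkN, hki⟩ := hk
    have hsub : Differentiable ℂ (fun s : ℂ => s - (c : ℂ) - (k' : ℂ)) :=
      (differentiable_id.sub_const _).sub_const _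
    refine ⟨fun s => ∏ T ∈ (univ : Finset (Fin (2 * c + 3))).powersetCard c,
      ∏ t : Fin k → ZMod 3, G T t (s - c - k') ^ mt C (ρ k') t, ?_, ?_, ?_⟩
    · exact Differentiable.fun_finsetProd fun T hT => Differentiable.fun_finsetProd fun t _ =>
        ((hd T (hcT T hT) t).comp hsub).pow _
    · intro s hs
      have hre : 3 / 2 < (s - (c : ℂ) - (k' : ℂ)).re := by
        rw [Complex.sub_re, Complex.sub_re, Complex.natCast_re, Complex.natCast_re]
        have h1 : (i : ℝ) = 2 * c + 1 + 2 * k' := by exact_mod_cast hki.symm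
        rw [h1] at hs
        linarith
      have h1 : HasProd (fun p : Nat.Primes =>
          ∏ T ∈ (univ : Finset (Fin (2 * c + 3))).powersetCard c,
            ∏ t : Fin k → ZMod 3, (if (p : ℕ) ∣ B then 1 else
              Gp (hk (tw ((D T : ℕ) : Ei) d t) (s - c - k')) p) ^ mt C (ρ k') t)
          (∏ T ∈ (univ : Finset (Fin (2 * c + 3))).powersetCard c,
            ∏ t : Fin k → ZMod 3, G T t (s - c - k') ^ mt C (ρ k') t) :=
        hasProd_prod fun T hT => hasProd_prod fun t _ => (hreg T (hcT T hT) t _ hre).pow _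
      refine h1.congr_fun fun p => ?_
      by_cases hp : (p : ℕ) ∣ B
      · rw [if_pos hp]
        simp [hp]
      · rw [if_neg hp]
        simp only [if_neg hp]
        have hpf := Fact.mk p.2
        have h2 : Aw (2 * c + 1) nY ((p : ℕ) : ℂ) (eigs c a p fun δ => β p ((δ : ℤ) : ZMod p))
            (fun k => ev (ρ k (σ p)⁻¹)) i =
            tns ((p : ℕ) : ℂ) (eigs c a p fun δ => β p ((δ : ℤ) : ZMod p)) (ev (ρ k' (σ p)⁻¹)) k' := by
          rw [Aw_odd _ _ _ hi, Finset.sum_eq_single k']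
          · rw [if_pos hki]
          · intro k'' _ hk'
            rw [if_neg (by omega)]
          · intro h
            exact absurd (Finset.mem_range.2 hkN) h
        rw [h2]
        have hp3 : (p : ℕ) ≠ 3 := by
          intro h
          apply hp
          rw [h]
          exact h3B
        exact loc_fac C (ρ k') hp3 (fun i h => hp (h.trans (hNB i))) (hv p) (hσ p) (hβ p hp)
          (haB p p.2 hp) hD k' s
    · have h1 : ((i : ℂ) + 1) / 2 - c - k' = 1 := by
        rw [← hki]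
        push_cast
        ring
      have hana : ∀ T, T.card = c → ∀ t : Fin k → ZMod 3,
          AnalyticAt ℂ (fun s => G T t (s - c - k') ^ mt C (ρ k') t) (((i : ℂ) + 1) / 2) :=
        fun T hT t => ((((hd T hT t).comp hsub).pow _).analyticAt _)
      have hana' : ∀ T, T.card = c → ∀ t : Fin k → ZMod 3,
          AnalyticAt ℂ (fun s => G T t (s - c - k')) (((i : ℂ) + 1) / 2) :=
        fun T hT t => (((hd T hT t).comp hsub).analyticAt _)
      have h2 : ∀ T, T.card = c → ∀ t : Fin k → ZMod 3,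
          analyticOrderAt (fun s => G T t (s - c - k') ^ mt C (ρ k') t) (((i : ℂ) + 1) / 2) =
            mt C (ρ k') t • analyticOrderAt (G T t) 1 := by
        intro T hT t
        have h3 := analyticOrderAt_pow (hana' T hT t) (mt C (ρ k') t)
        have h4 : analyticOrderAt (fun s => G T t (s - c - k')) (((i : ℂ) + 1) / 2) =
            analyticOrderAt (G T t) 1 := by
          have h5 := ord_shift (g := G T t) ((c : ℂ) + k') (((i : ℂ) + 1) / 2)
          have e5 : (((i : ℂ) + 1) / 2) - ((c : ℂ) + k') = 1 := by linear_combination h1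
          rw [e5] at h5
          rw [← h5]
          congr 1
          funext s
          rw [sub_sub]
        rw [h4] at h3
        exact h3
      rw [(ord_prod _ (fun T hT => (ord_prod _ (fun t _ => hana T (hcT T hT) t)).1)).2,
        Finset.sum_eq_single k']
      · rw [if_pos hki, Finset.mul_sum]
        refine Finset.sum_congr rfl fun T hT => ?_
        have hTc := hcT T hT
        rw [(ord_prod _ (fun t _ => hana T hTc t)).2, Finset.sum_eq_single 0]
        · rw [h2 T hTc, nsmul_eq_mul]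
        · intro t _ ht
          rw [h2 T hTc, (((hd T hTc t).analyticAt 1).analyticOrderAt_eq_zero).2 (hG1 T hTc t ht),
            smul_zero]
        · intro h
          exact absurd (Finset.mem_univ _) h
      · intro k'' _ hk'
        rw [if_neg (by omega)]
      · intro h
        exact absurd (Finset.mem_range.2 hkN) h
  · refine ⟨fun _ => 1, differentiable_const _, fun s _ => ?_, ?_⟩
    · have h1 : HasProd (fun _ : Nat.Primes => (1 : ℂ)) 1 := hasProd_one
      refine h1.congr_fun fun p => ?_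
      by_cases hp : (p : ℕ) ∣ B
      · rw [if_pos hp]
      · rw [if_neg hp, Aw_odd _ _ _ hi, Finset.sum_eq_zero]
        · simp
        · intro k' hk'
          rw [if_neg]
          intro h
          exact hk ⟨k', Finset.mem_range.1 hk', h⟩
    · rw [Finset.sum_eq_zero]
      · rw [(analyticAt_const).analyticOrderAt_eq_zero]
        exact one_ne_zero
      · intro k' hk'
        rw [if_neg]
        intro h
        exact hk ⟨k', Finset.mem_range.1 hk', h⟩

end Pool.Agent.V5helper41.SB
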