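import Mathlib

/-!
# Equivariant homomorphisms into complex representations
-/

set_option autoImplicit false
set_option linter.unusedSectionVars false

namespace Pool.Agent.V5helper41.SB

open scoped Classical

section ext

variable {A A₁ : Type} [AddCommGroup A] [AddCommGroup A₁] {U : Type} [AddCommGroup U]
  [Module ℂ U]

lemma nc_ne {n : ℕ} (hn : n ≠ 0) : (n : ℂ) ≠ 0 := Nat.cast_ne_zero.2 hn

lemma smul_cancel {n : ℕ} (hn : n ≠ 0) {u : U} (h : n • u = 0) : u = 0 := by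
  rw [← Nat.cast_smul_eq_nsmul ℂ n u] at h
  exact (smul_eq_zero.1 h).resolve_left (nc_ne hn)

/-- homomorphisms that agree on a subgroup with torsion quotient agree -/
theorem ext_uniq (H : A₁ →+ A) (hcok : ∀ a, ∃ n : ℕ, n ≠ 0 ∧ ∃ b, H b = n • a) {f g : A →+ U}
    (h : ∀ b, f (H b) = g (H b)) : f = g := by
  ext a
  obtain ⟨n, hn, b, hb⟩ := hcok a
  have h1 := h b
  rw [hb, map_nsmul, map_nsmul] at h1
  have h2 : n • (f a - g a) = 0 := by rw [smul_sub, h1, sub_self]
  exact sub_eq_zero.1 (smul_cancel hn h2)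

/-- homomorphisms to complex vector spaces extend -/
theorem ext_hom (H : A₁ →+ A) (hker : ∀ a, H a = 0 → ∃ n : ℕ, n ≠ 0 ∧ n • a = 0)
    (hcok : ∀ a, ∃ n : ℕ, n ≠ 0 ∧ ∃ b, H b = n • a) (g : A₁ →+ U) :
    ∃ f : A →+ U, ∀ b, f (H b) = g b := by
  choose n hn b hb using hcok
  have key : ∀ (a : A) (m : ℕ) (c : A₁), m ≠ 0 → H c = m • a →
      ((n a : ℕ) : ℂ)⁻¹ • g (b a) = (m : ℂ)⁻¹ • g c := by
    intro a m c hm hc
    have h1 : H (m • b a - n a • c) = 0 := by
      rw [map_sub, map_nsmul, map_nsmul, hb, hc, smul_smul, smul_smul, mul_comm, sub_self]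
    obtain ⟨k, hk, h2⟩ := hker _ h1
    have h3 : k • (m • g (b a) - n a • g c) = 0 := by
      rw [← map_nsmul, ← map_nsmul, ← map_sub, ← map_nsmul, h2, map_zero]
    have h4 := sub_eq_zero.1 (smul_cancel hk h3)
    rw [← Nat.cast_smul_eq_nsmul ℂ, ← Nat.cast_smul_eq_nsmul ℂ (n a)] at h4
    have hm' := nc_ne hm
    have hn' := nc_ne (hn a)
    rw [inv_smul_eq_iff₀ hn', smul_comm, ← h4, inv_smul_smul₀ hm']
  refine ⟨AddMonoidHom.mk' (fun a => ((n a : ℕ) : ℂ)⁻¹ • g (b a)) (fun a a' => ?_), fun c => ?_⟩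
  · have h1 : H (n a' • b a + n a • b a') = (n a * n a') • (a + a') := by
      rw [map_add, map_nsmul, map_nsmul, hb, hb, smul_smul, smul_smul, smul_add,
        mul_comm (n a') (n a)]
    show ((n (a + a') : ℕ) : ℂ)⁻¹ • g (b (a + a')) =
      ((n a : ℕ) : ℂ)⁻¹ • g (b a) + ((n a' : ℕ) : ℂ)⁻¹ • g (b a')
    rw [key (a + a') (n a * n a') _ (mul_ne_zero (hn a) (hn a')) h1, map_add, map_nsmul, map_nsmul,
      ← Nat.cast_smul_eq_nsmul ℂ (n a'), ← Nat.cast_smul_eq_nsmul ℂ (n a), smul_add, smul_smul,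
      smul_smul]
    have hn1 := nc_ne (hn a)
    have hn2 := nc_ne (hn a')
    congr 2
    · push_cast
      field_simp
    · push_cast
      field_simp
  · show ((n (H c) : ℕ) : ℂ)⁻¹ • g (b (H c)) = g c
    rw [key (H c) 1 c one_ne_zero (by rw [one_smul]), Nat.cast_one, inv_one, one_smul]

end ext

section rank

variable {A : Type} [AddCommGroup A] {U : Type} [AddCommGroup U] [Module ℂ U]

/-- a maximal free subgroup -/
theorem exists_free {r : ℕ} (hr : Module.rank ℤ A = r) :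
    ∃ H : (Fin r → ℤ) →+ A, (∀ a, H a = 0 → ∃ n : ℕ, n ≠ 0 ∧ n • a = 0) ∧
      ∀ a, ∃ n : ℕ, n ≠ 0 ∧ ∃ b, H b = n • a := by
  obtain ⟨s, hs, hli⟩ := exists_finset_linearIndependent_of_le_rank (R := ℤ) (M := A) (n := r)
    (by rw [hr])
  have hli' : LinearIndependent ℤ (fun x : s => (x : A)) := hli
  let e : Fin r ≃ s := (Fintype.equivFinOfCardEq (by rw [Fintype.card_coe, hs])).symm
  have hv : LinearIndependent ℤ (fun i : Fin r => ((e i : s) : A)) := hli'.comp e e.injective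
  let g : (Fin r → ℤ) →ₗ[ℤ] A := Fintype.linearCombination ℤ (fun i : Fin r => ((e i : s) : A))
  have hg : Function.Injective g := linearIndependent_iff_injective_fintypeLinearCombination.1 hv
  have h1 := rank_quotient_add_rank_of_isDomain (LinearMap.range g)
  have h2 : Module.rank ℤ (LinearMap.range g) = r := by
    rw [← (LinearEquiv.ofInjective g hg).rank_eq]
    exact rank_fin_fun r
  rw [h2, hr] at h1
  have h3 : Module.rank ℤ (A ⧸ LinearMap.range g) = 0 := by
    have h4 : Module.rank ℤ (A ⧸ LinearMap.range g) < Cardinal.aleph0 := by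
      refine lt_of_le_of_lt ?_ (Cardinal.natCast_lt_aleph0 (n := r))
      rw [← h1]
      exact self_le_add_right _ _
    obtain ⟨m, hm⟩ := Cardinal.lt_aleph0.1 h4
    rw [hm] at h1 ⊢
    have h5 : m + r = r := by exact_mod_cast h1
    have h6 : m = 0 := by omega
    rw [h6, Nat.cast_zero]
  refine ⟨g.toAddMonoidHom, fun a ha => ⟨1, one_ne_zero, ?_⟩, fun a => ?_⟩
  · rw [one_smul]
    exact hg (by rw [map_zero]; exact ha)
  · obtain ⟨n, hn, h4⟩ := rank_eq_zero_iff.1 h3 (Submodule.Quotient.mk a)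
    rw [← Submodule.Quotient.mk_smul, Submodule.Quotient.mk_eq_zero] at h4
    obtain ⟨b, hb⟩ := h4
    rcases Int.natAbs_eq n with h | h
    · refine ⟨n.natAbs, Int.natAbs_ne_zero.2 hn, b, ?_⟩
      show g b = _
      rw [hb, ← natCast_zsmul, ← h]
    · refine ⟨n.natAbs, Int.natAbs_ne_zero.2 hn, -b, ?_⟩
      show g (-b) = _
      rw [map_neg, hb, ← natCast_zsmul, ← neg_smul]
      congr 1
      omega

/-- the dimension of the space of the homomorphisms -/
theorem hom_rank {r : ℕ} (hr : Module.rank ℤ A = r) [FiniteDimensional ℂ U] :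
    Module.rank ℂ (A →+ U) = ((r * Module.finrank ℂ U : ℕ) : Cardinal) := by
  obtain ⟨H, hker, hcok⟩ := exists_free hr
  let e : (A →+ U) →ₗ[ℂ] (Fin r → U) :=
    { toFun := fun f i => f (H (Pi.single i 1))
      map_add' := fun f g => rfl
      map_smul' := fun c f => rfl }
  have hH : ∀ b : Fin r → ℤ, H b = ∑ i, b i • H (Pi.single i 1) := by
    intro b
    conv_lhs => rw [← Finset.univ_sum_single b]
    rw [map_sum]
    refine Finset.sum_congr rfl fun i _ => ?_
    rw [← map_zsmul]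
    congr 1
    rw [← Pi.single_smul, smul_eq_mul, mul_one]
  have hinj : Function.Injective e := by
    intro f g hfg
    refine ext_uniq H hcok fun b => ?_
    rw [hH b, map_sum, map_sum]
    refine Finset.sum_congr rfl fun i _ => ?_
    rw [map_zsmul, map_zsmul]
    congr 1
    exact congrFun hfg i
  have hsurj : Function.Surjective e := by
    intro u
    let g : (Fin r → ℤ) →+ U :=
      { toFun := fun b => ∑ i, b i • u i
        map_zero' := by simp
        map_add' := fun b b' => by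
          rw [← Finset.sum_add_distrib]
          exact Finset.sum_congr rfl fun i _ => by rw [Pi.add_apply, add_smul] }
    obtain ⟨f, hf⟩ := ext_hom H hker hcok g
    refine ⟨f, funext fun i => ?_⟩
    show f (H (Pi.single i 1)) = u i
    rw [hf]
    show ∑ l, (Pi.single i (1 : ℤ) : Fin r → ℤ) l • u l = u i
    rw [Finset.sum_eq_single i]
    · rw [Pi.single_eq_same, one_smul]
    · intro l _ hl
      rw [Pi.single_eq_of_ne hl, zero_smul]
    · intro h
      exact absurd (Finset.mem_univ _) h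
  rw [(LinearEquiv.ofBijective e ⟨hinj, hsurj⟩).rank_eq, rank_fun, Fintype.card_fin]
  rw [← Module.finrank_eq_rank ℂ U]
  push_cast
  rfl

end rank

/-! ### equivariant homomorphisms -/

section equi

variable {A A₀ : Type} [AddCommGroup A] [AddCommGroup A₀] {G : Type} [Group G] {b : ℕ}

/-- the equivariant homomorphisms -/
def Eq (act : G → A →+ A) (ρ : G →* Matrix (Fin b) (Fin b) ℂ) : Submodule ℂ (A → Fin b → ℂ) where
  carrier := {f | (∀ P Q, f (P + Q) = f P + f Q) ∧ ∀ σ P, f (act σ P) = (ρ σ).mulVec (f P)}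
  add_mem' := fun {f g} hf hg => ⟨fun P Q => by
    rw [Pi.add_apply, Pi.add_apply, Pi.add_apply, hf.1, hg.1]
    abel, fun σ P => by
    rw [Pi.add_apply, Pi.add_apply, hf.2, hg.2, Matrix.mulVec_add]⟩
  zero_mem' := ⟨fun P Q => by simp, fun σ P => by simp⟩
  smul_mem' := fun c f hf => ⟨fun P Q => by
    rw [Pi.smul_apply, Pi.smul_apply, Pi.smul_apply, hf.1, smul_add], fun σ P => by
    rw [Pi.smul_apply, Pi.smul_apply, hf.2, Matrix.mulVec_smul]⟩

/-- the vectors fixed by a subset -/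
def Fx (N : G → Prop) (ρ : G →* Matrix (Fin b) (Fin b) ℂ) : Submodule ℂ (Fin b → ℂ) where
  carrier := {v | ∀ σ, N σ → (ρ σ).mulVec v = v}
  add_mem' := fun {u v} hu hv σ hσ => by rw [Matrix.mulVec_add, hu σ hσ, hv σ hσ]
  zero_mem' := fun σ _ => Matrix.mulVec_zero _
  smul_mem' := fun c v hv σ hσ => by rw [Matrix.mulVec_smul, hv σ hσ]

/-- **The dimension of the space of the equivariant homomorphisms.** -/
theorem eq_rank {act : G → A →+ A} (ρ : G →* Matrix (Fin b) (Fin b) ℂ) {N : G → Prop}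
    {ι κ : A₀ →+ A} (h1 : ∀ σ P, act σ (ι P) = ι P) (h2 : ∀ σ, N σ → ∀ P, act σ (κ P) = κ P)
    (h2' : ∀ σ, ¬ N σ → ∀ P, act σ (κ P) = -κ P) {c : ℕ} (hc : c ≠ 0)
    (h3 : ∀ a : A, ∃ P Q, ι P + κ Q = c • a) {c' : ℕ} (hc' : c' ≠ 0)
    (h4 : ∀ P Q, ι P + κ Q = 0 → c' • P = 0 ∧ c' • Q = 0) {s₀ : G} (hs₀ : ¬ N s₀)
    (hN1 : ∀ σ, N σ → N (s₀⁻¹ * σ * s₀)) (hN2 : N (s₀ * s₀)) (hN3 : ∀ σ, ¬ N σ → N (s₀⁻¹ * σ))
    {r : ℕ} (hr : Module.rank ℤ A₀ = r) :
    Module.rank ℂ (Eq act ρ) = ((r * Module.finrank ℂ (Fx N ρ) : ℕ) : Cardinal) := by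
  rw [← hom_rank (U := Fx N ρ) hr]
  let H : A₀ × A₀ →+ A := AddMonoidHom.coprod ι κ
  have hH : ∀ P Q, H (P, Q) = ι P + κ Q := fun P Q => rfl
  have hcok : ∀ a, ∃ n : ℕ, n ≠ 0 ∧ ∃ b, H b = n • a := by
    intro a
    obtain ⟨P, Q, h⟩ := h3 a
    exact ⟨c, hc, (P, Q), h⟩
  have hker : ∀ a, H a = 0 → ∃ n : ℕ, n ≠ 0 ∧ n • a = 0 := by
    rintro ⟨P, Q⟩ h
    obtain ⟨h5, h6⟩ := h4 P Q h
    exact ⟨c', hc', Prod.ext h5 h6⟩
  -- the map
  have hmem : ∀ f ∈ Eq act ρ, ∀ P, f (ι P) + f (κ P) ∈ Fx N ρ := by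
    intro f hf P σ hσ
    rw [Matrix.mulVec_add, ← hf.2, ← hf.2, h1, h2 σ hσ]
  have hneg : ∀ f ∈ Eq act ρ, ∀ P, f (-P) = -f P := by
    intro f hf P
    have h0 : f 0 = 0 := by
      have := hf.1 0 0
      rw [add_zero] at this
      exact left_eq_add.1 this
    have h5 := hf.1 P (-P)
    rw [add_neg_cancel, h0] at h5
    exact (neg_eq_of_add_eq_zero_right h5.symm).symm
  let e : Eq act ρ →ₗ[ℂ] (A₀ →+ Fx N ρ) :=
    { toFun := fun f => AddMonoidHom.mk' (fun P => ⟨f.1 (ι P) + f.1 (κ P), hmem f.1 f.2 P⟩)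
        (fun P Q => by
          apply Subtype.ext
          show f.1 (ι (P + Q)) + f.1 (κ (P + Q)) = (f.1 (ι P) + f.1 (κ P)) + (f.1 (ι Q) + f.1 (κ Q))
          rw [map_add, map_add, f.2.1, f.2.1]
          abel)
      map_add' := fun f g => by
        apply DFunLike.ext
        intro P
        apply Subtype.ext
        show (f.1 (ι P) + g.1 (ι P)) + (f.1 (κ P) + g.1 (κ P)) =
          (f.1 (ι P) + f.1 (κ P)) + (g.1 (ι P) + g.1 (κ P))
        abel
      map_smul' := fun a f => by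
        apply DFunLike.ext
        intro P
        apply Subtype.ext
        show a • f.1 (ι P) + a • f.1 (κ P) = a • (f.1 (ι P) + f.1 (κ P))
        rw [smul_add] }
  have he : ∀ (f : Eq act ρ) (P : A₀), ((e f P : Fx N ρ) : Fin b → ℂ) = f.1 (ι P) + f.1 (κ P) :=
    fun f P => rfl
  have hinj : Function.Injective e := by
    rw [injective_iff_map_eq_zero]
    intro f hf
    have h5 : ∀ P, f.1 (ι P) + f.1 (κ P) = 0 := by
      intro P
      rw [← he, hf]
      rfl
    have h6 : ∀ P, f.1 (ι P) - f.1 (κ P) = 0 := by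
      intro P
      have h7 := congrArg (fun v => (ρ s₀).mulVec v) (h5 P)
      simp only [Matrix.mulVec_add, Matrix.mulVec_zero] at h7
      rw [← f.2.2, ← f.2.2, h1, h2' s₀ hs₀, hneg f.1 f.2] at h7
      rw [sub_eq_add_neg]
      exact h7
    have h7 : ∀ P, f.1 (ι P) = 0 ∧ f.1 (κ P) = 0 := by
      intro P
      have a1 := h5 P
      have a2 := h6 P
      have a3 : f.1 (ι P) = 0 := by
        refine smul_cancel (n := 2) two_ne_zero ?_
        have : (2 : ℕ) • f.1 (ι P) = (f.1 (ι P) + f.1 (κ P)) + (f.1 (ι P) - f.1 (κ P)) := by abel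
        rw [this, a1, a2, add_zero]
      rw [a3, zero_add] at a1
      exact ⟨a3, a1⟩
    have h8 : AddMonoidHom.mk' f.1 f.2.1 = 0 := by
      refine ext_uniq H hcok ?_
      rintro ⟨P, Q⟩
      show f.1 (ι P + κ Q) = 0
      rw [f.2.1, (h7 P).1, (h7 Q).2, add_zero]
    apply Subtype.ext
    funext P
    exact DFunLike.congr_fun h8 P
  have hsurj : Function.Surjective e := by
    intro g
    -- the involution
    have hst : ∀ v ∈ Fx N ρ, (ρ s₀).mulVec v ∈ Fx N ρ := by
      intro v hv σ hσ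
      have e1 : (ρ σ).mulVec ((ρ s₀).mulVec v) =
          (ρ s₀).mulVec ((ρ (s₀⁻¹ * σ * s₀)).mulVec v) := by
        rw [Matrix.mulVec_mulVec, Matrix.mulVec_mulVec, ← map_mul, ← map_mul]
        congr 2
        group
      rw [e1, hv _ (hN1 σ hσ)]
    have hss : ∀ v ∈ Fx N ρ, (ρ s₀).mulVec ((ρ s₀).mulVec v) = v := by
      intro v hv
      rw [Matrix.mulVec_mulVec, ← map_mul]
      exact hv _ hN2
    let gp : A₀ →+ (Fin b → ℂ) := AddMonoidHom.mk'
      (fun P => (2 : ℂ)⁻¹ • ((g P : Fin b → ℂ) + (ρ s₀).mulVec (g P : Fin b → ℂ)))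
      (fun P Q => by
        simp only [map_add, Submodule.coe_add, Matrix.mulVec_add]
        module)
    let gm : A₀ →+ (Fin b → ℂ) := AddMonoidHom.mk'
      (fun P => (2 : ℂ)⁻¹ • ((g P : Fin b → ℂ) - (ρ s₀).mulVec (g P : Fin b → ℂ)))
      (fun P Q => by
        simp only [map_add, Submodule.coe_add, Matrix.mulVec_add]
        module)
    have hgp : ∀ P, gp P = (2 : ℂ)⁻¹ • ((g P : Fin b → ℂ) + (ρ s₀).mulVec (g P : Fin b → ℂ)) :=
      fun P => rfl
    have hgm : ∀ P, gm P = (2 : ℂ)⁻¹ • ((g P : Fin b → ℂ) - (ρ s₀).mulVec (g P : Fin b → ℂ)) :=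
      fun P => rfl
    have hpF : ∀ P, gp P ∈ Fx N ρ := fun P => by
      rw [hgp]
      exact (Fx N ρ).smul_mem _ ((Fx N ρ).add_mem (g P).2 (hst _ (g P).2))
    have hmF : ∀ P, gm P ∈ Fx N ρ := fun P => by
      rw [hgm]
      exact (Fx N ρ).smul_mem _ ((Fx N ρ).sub_mem (g P).2 (hst _ (g P).2))
    have hp1 : ∀ P, (ρ s₀).mulVec (gp P) = gp P := by
      intro P
      rw [hgp, Matrix.mulVec_smul, Matrix.mulVec_add, hss _ (g P).2, add_comm]
    have hm1 : ∀ P, (ρ s₀).mulVec (gm P) = -gm P := by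
      intro P
      rw [hgm, Matrix.mulVec_smul, Matrix.mulVec_sub, hss _ (g P).2, ← smul_neg, neg_sub]
    obtain ⟨f, hf⟩ := ext_hom H hker hcok (AddMonoidHom.coprod gp gm)
    have hf' : ∀ P Q, f (ι P + κ Q) = gp P + gm Q := fun P Q => hf (P, Q)
    have hiota : ∀ P, f (ι P) = gp P := fun P => by
      have := hf' P 0
      rwa [map_zero, map_zero, add_zero, add_zero] at this
    have hkap : ∀ P, f (κ P) = gm P := fun P => by
      have := hf' 0 P
      rwa [map_zero, map_zero, zero_add, zero_add] at this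
    have heq : ∀ σ P, f (act σ P) = (ρ σ).mulVec (f P) := by
      intro σ
      let ml : (Fin b → ℂ) →+ (Fin b → ℂ) := AddMonoidHom.mk' (fun v => (ρ σ).mulVec v)
        (fun u v => Matrix.mulVec_add _ u v)
      have h5 : f.comp (act σ) = ml.comp f := by
        refine ext_uniq H hcok ?_
        rintro ⟨P, Q⟩
        show f (act σ (ι P + κ Q)) = (ρ σ).mulVec (f (ι P + κ Q))
        rw [map_add, h1, hf', Matrix.mulVec_add]
        by_cases hσ : N σ
        · rw [h2 σ hσ, hf', hpF P σ hσ, hmF Q σ hσ]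
        · rw [h2' σ hσ, map_add, map_neg, hiota, hkap]
          have e1 : ∀ v : Fin b → ℂ, (ρ σ).mulVec v = (ρ s₀).mulVec ((ρ (s₀⁻¹ * σ)).mulVec v) := by
            intro v
            rw [Matrix.mulVec_mulVec, ← map_mul]
            congr 2
            group
          rw [e1, e1, hpF P _ (hN3 σ hσ), hmF Q _ (hN3 σ hσ), hp1, hm1]
      intro P
      exact DFunLike.congr_fun h5 P
    refine ⟨⟨f, fun P Q => map_add f P Q, heq⟩, ?_⟩
    ext1 P
    apply Subtype.ext
    rw [he]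
    show f (ι P) + f (κ P) = (g P : Fin b → ℂ)
    rw [hiota, hkap, hgp, hgm]
    module
  exact (LinearEquiv.ofBijective e ⟨hinj, hsurj⟩).rank_eq

end equi

end Pool.Agent.V5helper41.SB
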